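import Pool.Agent.helper55.VD.SpecE2
import Pool.Agent.helper55.VD.SpecE1

/-!
# Project VD (MP_07c750_an), row `vd:EHB`: a bound for the Laplacian
-/

set_option autoImplicit false

open scoped ContDiff Topology InnerProductSpace ComplexConjugate
open MeasureTheory Filter Set

namespace Pool.Agent.VD

noncomputable section

/-- the determinant is smooth -/
theorem EHB_det (d : ℕ) : ContDiff ℝ ∞ fun A : V d →L[ℝ] V d => A.det := by
  have h1 : ∀ A : V d →L[ℝ] V d, A.det = ∑ σ : Equiv.Perm (Fin d), ((Equiv.Perm.sign σ : ℤ) : ℝ) *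
      ∏ i, ⟪(EuclideanSpace.basisFun (Fin d) ℝ) (σ i), A ((EuclideanSpace.basisFun (Fin d) ℝ) i)⟫_ℝ := by
    intro A
    have h2 : A.det = (LinearMap.toMatrix (EuclideanSpace.basisFun (Fin d) ℝ).toBasis
        (EuclideanSpace.basisFun (Fin d) ℝ).toBasis (A : V d →ₗ[ℝ] V d)).det := by
      rw [LinearMap.det_toMatrix]
    rw [h2, Matrix.det_apply']
    refine Finset.sum_congr rfl fun σ _ => ?_
    congr 1
    refine Finset.prod_congr rfl fun i _ => ?_
    rw [LinearMap.toMatrix_apply]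
    simp [EuclideanSpace.inner_single_left]
  rw [show (fun A : V d →L[ℝ] V d => A.det) = fun A => ∑ σ : Equiv.Perm (Fin d), ((Equiv.Perm.sign σ : ℤ) : ℝ) *
      ∏ i, ⟪(EuclideanSpace.basisFun (Fin d) ℝ) (σ i), A ((EuclideanSpace.basisFun (Fin d) ℝ) i)⟫_ℝ from funext h1]
  refine ContDiff.sum fun σ _ => contDiff_const.mul (contDiff_prod fun i _ => ?_)
  exact contDiff_const.inner ℝ (contDiff_id.clm_apply contDiff_const)

/-- operators with a lower bound are invertible -/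
theorem EHB_equiv {d : ℕ} {b : ℝ} (A : V d →L[ℝ] V d) (h : ∀ u, ‖u‖ ^ 2 ≤ b * ⟪A u, u⟫_ℝ) :
    (∃ e : V d ≃L[ℝ] V d, (e : V d →L[ℝ] V d) = A) ∧ A.det ≠ 0 := by
  have hinj : Function.Injective (A : V d →ₗ[ℝ] V d) := by
    rw [injective_iff_map_eq_zero]
    intro u hu
    have h2 : A u = 0 := hu
    have h1 := h u
    rw [h2, inner_zero_left, mul_zero] at h1
    have h3 : ‖u‖ = 0 := by nlinarith [norm_nonneg u]
    exact norm_eq_zero.1 h3
  refine ⟨⟨(LinearEquiv.ofInjectiveEndo (A : V d →ₗ[ℝ] V d) hinj).toContinuousLinearEquiv, ?_⟩, ?_⟩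
  · ext x
    simp
  · have h4 := (LinearEquiv.ofInjectiveEndo (A : V d →ₗ[ℝ] V d) hinj).isUnit_det'
    have h5 : ((LinearEquiv.ofInjectiveEndo (A : V d →ₗ[ℝ] V d) hinj : V d ≃ₗ[ℝ] V d) : V d →ₗ[ℝ] V d) = (A : V d →ₗ[ℝ] V d) := by
      ext x
      simp
    rw [h5] at h4
    exact h4.ne_zero

/-- the bounds on the compact set -/
theorem EHB_bound (d : ℕ) (b : ℝ) : ∃ M : ℝ, 0 ≤ M ∧ ∀ A : V d →L[ℝ] V d, (∀ u, ‖u‖ ^ 2 ≤ b * ⟪A u, u⟫_ℝ) → ‖A‖ ≤ b → 0 ≤ A.det →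
    (Real.sqrt A.det)⁻¹ ≤ M ∧ ‖fderiv ℝ (fun B : V d →L[ℝ] V d => Real.sqrt B.det) A‖ ≤ M ∧ ‖A.inverse‖ ≤ M ∧
      ‖fderiv ℝ (ContinuousLinearMap.inverse : (V d →L[ℝ] V d) → (V d →L[ℝ] V d)) A‖ ≤ M := by
  have hproper : ProperSpace (V d →L[ℝ] V d) := FiniteDimensional.proper ℝ _
  set S : Set (V d →L[ℝ] V d) := {A | (∀ u, ‖u‖ ^ 2 ≤ b * ⟪A u, u⟫_ℝ) ∧ ‖A‖ ≤ b ∧ 0 ≤ A.det} with hS
  have hScl : IsClosed S := by
    have h1 : IsClosed {A : V d →L[ℝ] V d | ∀ u, ‖u‖ ^ 2 ≤ b * ⟪A u, u⟫_ℝ} := by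
      have h2 : {A : V d →L[ℝ] V d | ∀ u, ‖u‖ ^ 2 ≤ b * ⟪A u, u⟫_ℝ} = ⋂ u, {A : V d →L[ℝ] V d | ‖u‖ ^ 2 ≤ b * ⟪A u, u⟫_ℝ} := by
        ext A
        simp
      rw [h2]
      refine isClosed_iInter fun u => isClosed_le continuous_const (continuous_const.mul ?_)
      exact (ContinuousLinearMap.apply ℝ (V d) u).continuous.inner continuous_const
    have h2 : IsClosed {A : V d →L[ℝ] V d | ‖A‖ ≤ b} := isClosed_le continuous_norm continuous_const
    have h3 : IsClosed {A : V d →L[ℝ] V d | 0 ≤ A.det} := isClosed_le continuous_const (EHB_det d).continuous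
    exact h1.inter (h2.inter h3)
  have hSc : IsCompact S := by
    refine Metric.isCompact_of_isClosed_isBounded hScl ?_
    refine (Metric.isBounded_closedBall (x := (0 : V d →L[ℝ] V d)) (r := b)).subset ?_
    intro A hA
    rw [Metric.mem_closedBall, dist_zero_right]
    exact hA.2.1
  have hsq : ∀ A ∈ S, ContDiffAt ℝ ∞ (fun B : V d →L[ℝ] V d => Real.sqrt B.det) A := fun A hA =>
    (EHB_det d).contDiffAt.sqrt (EHB_equiv A hA.1).2
  have hin : ∀ A ∈ S, ContDiffAt ℝ ∞ (ContinuousLinearMap.inverse : (V d →L[ℝ] V d) → (V d →L[ℝ] V d)) A := by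
    intro A hA
    obtain ⟨e, he⟩ := (EHB_equiv A hA.1).1
    rw [← he]
    exact contDiffAt_map_inverse e
  obtain ⟨C1, hC1⟩ := hSc.exists_bound_of_continuousOn (f := fun A : V d →L[ℝ] V d => (Real.sqrt A.det)⁻¹) (fun A hA => by
    have h1 : Real.sqrt A.det ≠ 0 :=
      (Real.sqrt_pos.2 (lt_of_le_of_ne hA.2.2 (EHB_equiv A hA.1).2.symm)).ne'
    exact ((hsq A hA).continuousAt.inv₀ h1).continuousWithinAt)
  obtain ⟨C2, hC2⟩ := hSc.exists_bound_of_continuousOn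
    (f := fderiv ℝ (fun B : V d →L[ℝ] V d => Real.sqrt B.det)) (fun A hA =>
      (((hsq A hA).fderiv_right (m := 0) (by norm_num)).continuousAt).continuousWithinAt)
  obtain ⟨C3, hC3⟩ := hSc.exists_bound_of_continuousOn
    (f := (ContinuousLinearMap.inverse : (V d →L[ℝ] V d) → (V d →L[ℝ] V d))) (fun A hA =>
      (hin A hA).continuousAt.continuousWithinAt)
  obtain ⟨C4, hC4⟩ := hSc.exists_bound_of_continuousOn
    (f := fderiv ℝ (ContinuousLinearMap.inverse : (V d →L[ℝ] V d) → (V d →L[ℝ] V d))) (fun A hA =>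
      (((hin A hA).fderiv_right (m := 0) (by norm_num)).continuousAt).continuousWithinAt)
  refine ⟨max 0 (max (max C1 C2) (max C3 C4)), le_max_left _ _, fun A h1 h2 h3 => ?_⟩
  have hA : A ∈ S := ⟨h1, h2, h3⟩
  have e1 : C1 ≤ max 0 (max (max C1 C2) (max C3 C4)) := ((le_max_left C1 C2).trans (le_max_left _ _)).trans (le_max_right _ _)
  have e2 : C2 ≤ max 0 (max (max C1 C2) (max C3 C4)) := ((le_max_right C1 C2).trans (le_max_left _ _)).trans (le_max_right _ _)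
  have e3 : C3 ≤ max 0 (max (max C1 C2) (max C3 C4)) := ((le_max_left C3 C4).trans (le_max_right _ _)).trans (le_max_right _ _)
  have e4 : C4 ≤ max 0 (max (max C1 C2) (max C3 C4)) := ((le_max_right C3 C4).trans (le_max_right _ _)).trans (le_max_right _ _)
  exact ⟨((le_abs_self _).trans (hC1 A hA)).trans e1, (hC2 A hA).trans e2, (hC3 A hA).trans e3, (hC4 A hA).trans e4⟩

/-- second derivatives -/
theorem EHB_two {d : ℕ} (w : V d → ℂ) (x u v : V d) : ‖fderiv ℝ (fderiv ℝ w) x u v‖ ≤ ‖iteratedFDeriv ℝ 2 w x‖ * (‖u‖ * ‖v‖) := by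
  have h1 := iteratedFDeriv_two_apply (𝕜 := ℝ) w x ![u, v]
  have h2 : fderiv ℝ (fderiv ℝ w) x u v = iteratedFDeriv ℝ 2 w x ![u, v] := by
    rw [h1]
    rfl
  rw [h2]
  refine ((iteratedFDeriv ℝ 2 w x).le_opNorm _).trans (le_of_eq ?_)
  rw [Fin.prod_univ_two]
  rfl

/-- **EHB** -/
theorem EHB_proof (hEHD : EHD_stmt) : EHB_stmt := by
  intro d b
  obtain ⟨M, hM0, hM⟩ := EHB_bound d b
  refine ⟨max 1 (d * (M + M * |b| + M * (M * |b|) * M)), le_max_left _ _, ?_⟩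
  intro G w x b' hG hw hlo hup hdG hw1 hw2
  obtain ⟨hpos, hdens, hinv, -⟩ := hEHD d G hG
  have hb0 : 0 ≤ b := (norm_nonneg _).trans hup
  have hb'0 : 0 ≤ b' := (norm_nonneg _).trans hw1
  rw [abs_of_nonneg hb0]
  obtain ⟨k1, k2, k3, k4⟩ := hM (G x) hlo hup (hpos x).1.le
  set e : Fin d → V d := fun i => EuclideanSpace.single i (1 : ℝ) with he
  have hen : ∀ i, ‖e i‖ = 1 := fun i => by
    show ‖(EuclideanSpace.single i (1 : ℝ) : V d)‖ = 1
    simp
  have hGd : DifferentiableAt ℝ G x := (hG.smooth.differentiable (by norm_num)) x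
  obtain ⟨⟨eq, heq⟩, hdet0⟩ := EHB_equiv (G x) hlo
  -- the density
  have hρd : DifferentiableAt ℝ (dens G) x := (hdens.differentiable (by norm_num)) x
  have hρf : ∀ u, |fderiv ℝ (dens G) x u| ≤ M * b * ‖u‖ := by
    intro u
    have h1 : fderiv ℝ (dens G) x = (fderiv ℝ (fun B : V d →L[ℝ] V d => Real.sqrt B.det) (G x)).comp (fderiv ℝ G x) := by
      have h2 : DifferentiableAt ℝ (fun B : V d →L[ℝ] V d => Real.sqrt B.det) (G x) :=
        ((EHB_det d).contDiffAt.sqrt hdet0).differentiableAt (by norm_num)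
      exact fderiv_comp x h2 hGd
    rw [h1, ← Real.norm_eq_abs]
    refine (ContinuousLinearMap.le_opNorm _ _).trans (mul_le_mul_of_nonneg_right ?_ (norm_nonneg _))
    exact (ContinuousLinearMap.opNorm_comp_le _ _).trans (mul_le_mul k2 hdG (norm_nonneg _) hM0)
  -- the inverse
  set H : V d → (V d →L[ℝ] V d) := fun y => (G y).inverse with hH
  have hHd : DifferentiableAt ℝ H x := (hinv.differentiable (by norm_num)) x
  have hHf : ∀ u v, ‖fderiv ℝ H x u v‖ ≤ M * b * (‖u‖ * ‖v‖) := by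
    intro u v
    have h1 : fderiv ℝ H x = (fderiv ℝ (ContinuousLinearMap.inverse : (V d →L[ℝ] V d) → (V d →L[ℝ] V d)) (G x)).comp (fderiv ℝ G x) := by
      have h2 : DifferentiableAt ℝ (ContinuousLinearMap.inverse : (V d →L[ℝ] V d) → (V d →L[ℝ] V d)) (G x) := by
        rw [← heq]
        exact (contDiffAt_map_inverse (𝕜 := ℝ) (n := 1) eq).differentiableAt (by norm_num)
      exact fderiv_comp x h2 hGd
    have h2 : ‖fderiv ℝ H x‖ ≤ M * b := by
      rw [h1]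
      exact (ContinuousLinearMap.opNorm_comp_le _ _).trans (mul_le_mul k4 hdG (norm_nonneg _) hM0)
    calc ‖fderiv ℝ H x u v‖ ≤ ‖fderiv ℝ H x u‖ * ‖v‖ := ContinuousLinearMap.le_opNorm _ _
      _ ≤ (‖fderiv ℝ H x‖ * ‖u‖) * ‖v‖ := mul_le_mul_of_nonneg_right (ContinuousLinearMap.le_opNorm _ _) (norm_nonneg _)
      _ ≤ (M * b * ‖u‖) * ‖v‖ := by
          refine mul_le_mul_of_nonneg_right (mul_le_mul_of_nonneg_right h2 (norm_nonneg _)) (norm_nonneg _)
      _ = M * b * (‖u‖ * ‖v‖) := by ring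
  have hwd : DifferentiableAt ℝ (fderiv ℝ w) x :=
    ((hw.fderiv_right (m := 1) (by norm_num)).differentiable (by norm_num)) x
  -- the derivative of the inner functions
  have hder : ∀ i, fderiv ℝ (fun y => ((dens G y : ℝ) : ℂ) * fderiv ℝ w y (H y (e i))) x (e i) =
      ((dens G x : ℝ) : ℂ) * (fderiv ℝ (fderiv ℝ w) x (e i) (H x (e i)) + fderiv ℝ w x (fderiv ℝ H x (e i) (e i))) +
        ((fderiv ℝ (dens G) x (e i) : ℝ) : ℂ) * fderiv ℝ w x (H x (e i)) := by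
    intro i
    have h1 : HasFDerivAt (fun y => ((dens G y : ℝ) : ℂ)) (Complex.ofRealCLM.comp (fderiv ℝ (dens G) x)) x :=
      Complex.ofRealCLM.hasFDerivAt.comp x hρd.hasFDerivAt
    have h2 : HasFDerivAt (fun y => H y (e i)) ((fderiv ℝ H x).flip (e i)) x := by
      have h3 := hHd.hasFDerivAt.clm_apply (hasFDerivAt_const (e i) x)
      rw [ContinuousLinearMap.comp_zero, zero_add] at h3
      exact h3
    have h3 := hwd.hasFDerivAt.clm_apply h2
    have h4 := h1.mul h3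
    have h5 : fderiv ℝ (fun y => ((dens G y : ℝ) : ℂ) * fderiv ℝ w y (H y (e i))) x = _ := h4.fderiv
    rw [h5]
    show ((dens G x : ℝ) : ℂ) * (fderiv ℝ w x (fderiv ℝ H x (e i) (e i)) + fderiv ℝ (fderiv ℝ w) x (e i) (H x (e i))) +
      fderiv ℝ w x (H x (e i)) * ((fderiv ℝ (dens G) x (e i) : ℝ) : ℂ) = _
    ring
  have hρ0 : 0 < dens G x := (hpos x).2
  have hlap : lap G w x = ∑ i, (fderiv ℝ (fderiv ℝ w) x (e i) (H x (e i)) + fderiv ℝ w x (fderiv ℝ H x (e i) (e i)) +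
      (((dens G x)⁻¹ * fderiv ℝ (dens G) x (e i) : ℝ) : ℂ) * fderiv ℝ w x (H x (e i))) := by
    have h1 : lap G w x = (((dens G x)⁻¹ : ℝ) : ℂ) * ∑ i, fderiv ℝ (fun y => ((dens G y : ℝ) : ℂ) * fderiv ℝ w y (H y (e i))) x (e i) := rfl
    rw [h1, Finset.mul_sum]
    refine Finset.sum_congr rfl fun i _ => ?_
    rw [hder i]
    have h2 : ((dens G x : ℝ) : ℂ) ≠ 0 := by exact_mod_cast hρ0.ne'
    push_cast
    field_simp
  rw [hlap]
  have hterm : ∀ i, ‖fderiv ℝ (fderiv ℝ w) x (e i) (H x (e i)) + fderiv ℝ w x (fderiv ℝ H x (e i) (e i)) +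
      (((dens G x)⁻¹ * fderiv ℝ (dens G) x (e i) : ℝ) : ℂ) * fderiv ℝ w x (H x (e i))‖ ≤ (M + M * b + M * (M * b) * M) * b' := by
    intro i
    have hHx : ‖H x (e i)‖ ≤ M := by
      refine (ContinuousLinearMap.le_opNorm _ _).trans ?_
      rw [hen i, mul_one]
      exact k3
    have t1 : ‖fderiv ℝ (fderiv ℝ w) x (e i) (H x (e i))‖ ≤ b' * M := by
      refine (EHB_two w x _ _).trans ?_
      rw [hen i, one_mul]
      exact mul_le_mul hw2 hHx (norm_nonneg _) hb'0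
    have t2 : ‖fderiv ℝ w x (fderiv ℝ H x (e i) (e i))‖ ≤ b' * (M * b) := by
      refine (ContinuousLinearMap.le_opNorm _ _).trans ?_
      have h1 := hHf (e i) (e i)
      rw [hen i, one_mul, mul_one] at h1
      exact mul_le_mul hw1 h1 (norm_nonneg _) hb'0
    have t3 : ‖fderiv ℝ w x (H x (e i))‖ ≤ b' * M := by
      refine (ContinuousLinearMap.le_opNorm _ _).trans ?_
      exact mul_le_mul hw1 hHx (norm_nonneg _) hb'0
    have t4 : ‖(((dens G x)⁻¹ * fderiv ℝ (dens G) x (e i) : ℝ) : ℂ)‖ ≤ M * (M * b) := by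
      rw [Complex.norm_real, Real.norm_eq_abs, abs_mul, abs_of_nonneg (inv_nonneg.2 hρ0.le)]
      have h1 := hρf (e i)
      rw [hen i, mul_one] at h1
      exact mul_le_mul k1 h1 (abs_nonneg _) hM0
    have t5 : ‖(((dens G x)⁻¹ * fderiv ℝ (dens G) x (e i) : ℝ) : ℂ) * fderiv ℝ w x (H x (e i))‖ ≤ M * (M * b) * (b' * M) := by
      rw [norm_mul]
      exact mul_le_mul t4 t3 (norm_nonneg _) (mul_nonneg hM0 (mul_nonneg hM0 hb0))
    refine ((norm_add_le _ _).trans (add_le_add (norm_add_le _ _) le_rfl)).trans ?_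
    linarith
  calc ‖∑ i, (fderiv ℝ (fderiv ℝ w) x (e i) (H x (e i)) + fderiv ℝ w x (fderiv ℝ H x (e i) (e i)) +
        (((dens G x)⁻¹ * fderiv ℝ (dens G) x (e i) : ℝ) : ℂ) * fderiv ℝ w x (H x (e i)))‖
      ≤ ∑ _i : Fin d, (M + M * b + M * (M * b) * M) * b' := norm_sum_le_of_le _ fun i _ => hterm i
    _ = (d * (M + M * b + M * (M * b) * M)) * b' := by
        rw [Finset.sum_const, Finset.card_univ, Fintype.card_fin, nsmul_eq_mul]
        ring
    _ ≤ max 1 (d * (M + M * b + M * (M * b) * M)) * b' := mul_le_mul_of_nonneg_right (le_max_right _ _) hb'0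

end

end Pool.Agent.VD
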