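import Pool.Agent.helper47.VD.SpecA1

/-! Row ABRD of project VD: the profile. -/

set_option autoImplicit false

open scoped ContDiff Topology InnerProductSpace ComplexConjugate ENNReal
open MeasureTheory Filter Set

namespace Pool.Agent.VD

open Pool.Agent.VQ (CH)

noncomputable section

theorem ABRD_smooth {d : ℕ} {ch : ℝ → ℝ} (hch : CH ch) (ζ R : ℝ) : ContDiff ℝ ∞ (b0 ch ζ R : V d → ℝ) := by
  have hn : ContDiff ℝ ∞ (fun v : V d => ‖v‖ ^ 2) := contDiff_norm_sq ℝ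
  have h1 : ContDiff ℝ ∞ (fun v : V d => Real.exp (-(R * ‖v‖ ^ 2 / 2))) :=
    (((contDiff_const.mul hn).div_const 2).neg).exp
  have h2 : ContDiff ℝ ∞ (fun v : V d => ch (R ^ (1 - 2 * ζ) * ‖v‖ ^ 2)) :=
    hch.smooth.comp (contDiff_const.mul hn)
  exact h1.mul h2

theorem ABRD_supp {d : ℕ} {ch : ℝ → ℝ} (hch : CH ch) {ζ R : ℝ} (hR : 0 < R) (v : V d) (hv : b0 ch ζ R v ≠ 0) : ‖v‖ ≤ R ^ (-(1 / 2) + ζ) := by
  by_contra hcon
  rw [not_le] at hcon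
  apply hv
  unfold b0
  have h1 : 1 ≤ R ^ (1 - 2 * ζ) * ‖v‖ ^ 2 := by
    have h2 : (R ^ (-(1 / 2) + ζ)) ^ 2 ≤ ‖v‖ ^ 2 := by
      have h3 : 0 ≤ R ^ (-(1 / 2) + ζ) := (Real.rpow_pos_of_pos hR _).le
      exact pow_le_pow_left₀ h3 hcon.le 2
    have h4 : R ^ (1 - 2 * ζ) * (R ^ (-(1 / 2) + ζ)) ^ 2 = 1 := by
      rw [← Real.rpow_natCast, ← Real.rpow_mul hR.le, ← Real.rpow_add hR]
      have h5 : 1 - 2 * ζ + (-(1 / 2) + ζ) * ((2 : ℕ) : ℝ) = 0 := by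
        push_cast
        ring
      rw [h5, Real.rpow_zero]
    calc (1 : ℝ) = R ^ (1 - 2 * ζ) * (R ^ (-(1 / 2) + ζ)) ^ 2 := h4.symm
      _ ≤ R ^ (1 - 2 * ζ) * ‖v‖ ^ 2 := mul_le_mul_of_nonneg_left h2 (Real.rpow_pos_of_pos hR _).le
  rw [hch.zero _ h1, mul_zero]

theorem ABRD_quarter {ζ R : ℝ} (hζ : ζ ≤ 1 / 8) (hR : 64 ≤ R) : R ^ (-(1 / 2) + ζ) ≤ 1 / 4 := by
  have h1 : R ^ (-(1 / 2) + ζ) ≤ R ^ (-(3 / 8) : ℝ) := Real.rpow_le_rpow_of_exponent_le (by linarith) (by linarith)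
  have h2 : R ^ (-(3 / 8) : ℝ) ≤ (64 : ℝ) ^ (-(3 / 8) : ℝ) := Real.rpow_le_rpow_of_nonpos (by norm_num) hR (by norm_num)
  have h3 : (64 : ℝ) ^ (-(3 / 8) : ℝ) ≤ 1 / 4 := by
    have h4 : (64 : ℝ) = 2 ^ (6 : ℝ) := by norm_num
    have h5 : (1 / 4 : ℝ) = 2 ^ (-2 : ℝ) := by
      rw [Real.rpow_neg (by norm_num)]
      norm_num
    rw [h4, ← Real.rpow_mul (by norm_num), h5]
    exact Real.rpow_le_rpow_of_exponent_le (by norm_num) (by norm_num)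
  linarith

theorem ABRD_half {R : ℝ} (hR : 64 ≤ R) : R ^ (-(1 / 2) : ℝ) ≤ 1 / 8 := by
  have h2 : R ^ (-(1 / 2) : ℝ) ≤ (64 : ℝ) ^ (-(1 / 2) : ℝ) := Real.rpow_le_rpow_of_nonpos (by norm_num) hR (by norm_num)
  have h3 : (64 : ℝ) ^ (-(1 / 2) : ℝ) = 1 / 8 := by
    have h4 : (64 : ℝ) = 2 ^ (6 : ℝ) := by norm_num
    have h5 : (1 / 8 : ℝ) = 2 ^ (-3 : ℝ) := by
      rw [Real.rpow_neg (by norm_num)]
      norm_num
    rw [h4, ← Real.rpow_mul (by norm_num), h5]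
    norm_num
  linarith

theorem ABRD_cR {d : ℕ} (hd : d ≠ 0) {R : ℝ} (hR : 64 ≤ R) : (R / (2 * Real.pi)) ^ d ≤ R ^ (3 * (d : ℝ) / 2) * (7 / 8 * (Real.pi / R) ^ ((d : ℝ) / 2)) := by
  have hR0 : 0 < R := by linarith
  have hpi := Real.pi_gt_three
  have hpi0 := Real.pi_pos
  have h1 : R ^ (3 * (d : ℝ) / 2) * (Real.pi / R) ^ ((d : ℝ) / 2) = R ^ d * Real.pi ^ ((d : ℝ) / 2) := by
    rw [Real.div_rpow hpi0.le hR0.le]
    have h2 : R ^ (3 * (d : ℝ) / 2) = R ^ d * R ^ ((d : ℝ) / 2) := by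
      rw [← Real.rpow_natCast, ← Real.rpow_add hR0]
      congr 1
      ring
    rw [h2]
    have h3 : R ^ ((d : ℝ) / 2) ≠ 0 := (Real.rpow_pos_of_pos hR0 _).ne'
    field_simp
  have h4 : 1 ≤ Real.pi ^ ((d : ℝ) / 2) := Real.one_le_rpow (by linarith) (by positivity)
  have h5 : (R / (2 * Real.pi)) ^ d ≤ R ^ d / 6 := by
    rw [div_pow]
    have h6 : (6 : ℝ) ≤ (2 * Real.pi) ^ d := by
      calc (6 : ℝ) ≤ (2 * Real.pi) ^ 1 := by rw [pow_one]; linarith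
        _ ≤ (2 * Real.pi) ^ d := pow_le_pow_right₀ (by linarith) (Nat.one_le_iff_ne_zero.mpr hd)
    exact div_le_div_of_nonneg_left (by positivity) (by norm_num) h6
  have h7 : 0 < R ^ d := by positivity
  calc (R / (2 * Real.pi)) ^ d ≤ R ^ d / 6 := h5
    _ ≤ 7 / 8 * (R ^ d * 1) := by linarith
    _ ≤ 7 / 8 * (R ^ d * Real.pi ^ ((d : ℝ) / 2)) := by
        have := mul_le_mul_of_nonneg_left h4 h7.le
        linarith
    _ = R ^ (3 * (d : ℝ) / 2) * (7 / 8 * (Real.pi / R) ^ ((d : ℝ) / 2)) := by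
        rw [← h1]
        ring

theorem ABRD_proof (h1 : ABRE_stmt) : ABRD_stmt := by
  intro d ch ζ hch hζ hζ8
  obtain ⟨R1, -, hR1⟩ := h1 d ch ζ hch hζ hζ8
  refine ⟨max R1 64, le_trans (by norm_num) (le_max_right R1 64), fun R hR => ?_⟩
  have hR64 : 64 ≤ R := le_trans (le_max_right _ _) hR
  have hR0 : 0 < R := by linarith
  obtain ⟨-, -, hd0, hup, hlow, hint, -⟩ := hR1 R (le_trans (le_max_left _ _) hR)
  have hpi0 := Real.pi_pos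
  have hX : 0 < (Real.pi / R) ^ ((d : ℝ) / 2) := Real.rpow_pos_of_pos (by positivity) _
  have hhalf := ABRD_half hR64
  have hlow' : 7 / 8 * (Real.pi / R) ^ ((d : ℝ) / 2) ≤ bR d ch ζ R := by
    refine le_trans ?_ hlow
    exact mul_le_mul_of_nonneg_right (by linarith) hX.le
  have hbR : 0 < bR d ch ζ R := lt_of_lt_of_le (by positivity) hlow'
  have hq : 0 < (R / (2 * Real.pi)) ^ d / bR d ch ζ R := by positivity
  refine ⟨ABRD_smooth hch ζ R, fun v hv => ABRD_supp hch hR0 v hv, fun v => ⟨?_, ?_⟩, ABRD_quarter hζ8 hR64, hbR, hup, hlow, ?_, ?_, ?_, hint⟩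
  · unfold b0
    exact mul_nonneg (Real.exp_pos _).le (hch.bd _).1
  · unfold b0
    exact mul_le_of_le_one_right (Real.exp_pos _).le (hch.bd _).2
  · unfold cR
    rw [Real.sq_sqrt hq.le]
    field_simp
  · unfold cR
    exact Real.sqrt_pos.mpr hq
  · unfold cR
    rw [Real.sqrt_le_iff]
    refine ⟨(Real.rpow_pos_of_pos hR0 _).le, ?_⟩
    have e1 : (R ^ (3 * (d : ℝ) / 4)) ^ 2 = R ^ (3 * (d : ℝ) / 2) := by
      rw [← Real.rpow_natCast, ← Real.rpow_mul hR0.le]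
      congr 1
      push_cast
      ring
    rw [e1, div_le_iff₀ hbR]
    by_cases hd : d = 0
    · rw [hd0 hd]
      subst hd
      simp
    · refine (ABRD_cR hd hR64).trans ?_
      exact mul_le_mul_of_nonneg_left hlow' (Real.rpow_pos_of_pos hR0 _).le

end

end Pool.Agent.VD
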