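import Pool.Agent.helper74.VD.SpecA6

/-! Row AI2D of project VD: the big step is nearly a contraction on the quotient. -/

set_option autoImplicit false

open scoped ContDiff Topology InnerProductSpace ComplexConjugate ENNReal
open MeasureTheory Filter Set

namespace Pool.Agent.VD

open Pool.Agent.RPQ (IsOp)
open Pool.Agent.VQ (CH perZ vz mZ qZ PS KZ)

noncomputable section

theorem AI2D_norm {Y : Type} [MeasurableSpace Y] (μ : Measure Y) (v : Lp ℂ 2 μ) : ‖v‖ ^ 2 = ∫ x, ‖v x‖ ^ 2 ∂μ := by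
  have h : inner ℂ v v = ∫ a, inner ℂ (v a) (v a) ∂μ := L2.inner_def v v
  have e : ∀ a, inner ℂ (v a) (v a) = ((‖v a‖ ^ 2 : ℝ) : ℂ) := fun a => by
    rw [inner_self_eq_norm_sq_to_K]
    push_cast
    rfl
  simp only [e] at h
  rw [integral_complex_ofReal, inner_self_eq_norm_sq_to_K] at h
  refine Complex.ofReal_injective ?_
  rw [← h]
  push_cast
  rfl

variable {d : ℕ}

/-- the window -/
def AI2D_W (G : V d → V d →L[ℝ] V d) (r0 R : ℝ) : Set (P d) := {p | ‖p.1‖ ≤ r0 ∧ |Ep G p| ≤ 2 * R ^ (-(1 / 4) : ℝ)}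

theorem AI2D_sec (Γ : Type) [Group Γ] : Measurable (fun p : P d => (show YS Γ d from ((1 : Γ), p))) := by
  letI : MeasurableSpace Γ := ⊤
  have h : Measurable (fun p : P d => ((1 : Γ), p)) := measurable_const.prodMk measurable_id
  exact h

theorem AI2D_snd (Γ : Type) : Measurable (fun y : YS Γ d => y.2) := by
  letI : MeasurableSpace Γ := ⊤
  have h : Measurable (fun y : Γ × P d => y.2) := measurable_snd
  exact h

theorem AI2D_ext (Γ : Type) [Group Γ] (W : Set (P d)) (hW : MeasurableSet W) (u : YS Γ d → ℂ) (hu : Measurable u) (hb : ∃ b : ℝ, ∀ p, ‖u p‖ ≤ b) :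
    ∃ w : YS Γ d → ℂ, Measurable w ∧ (∃ b : ℝ, ∀ y, ‖w y‖ ≤ b) ∧ (∀ (γ : Γ) (y : YS Γ d), w (γ • y) = w y) ∧ FP (⊤ : Subgroup Γ) ({1} : Set Γ) w ∧
      (∀ y : YS Γ d, y.2 ∉ W → w y = 0) ∧ ∀ y : YS Γ d, y.1 = 1 → y.2 ∈ W → w y = u y := by
  classical
  obtain ⟨b, hb⟩ := hb
  obtain ⟨w, hw⟩ : ∃ w : YS Γ d → ℂ, w = fun y => if y.2 ∈ W then u (1, y.2) else 0 := ⟨_, rfl⟩
  have hm : Measurable w := by
    rw [hw]
    exact Measurable.ite (AI2D_snd Γ hW) (hu.comp ((AI2D_sec Γ).comp (AI2D_snd Γ))) measurable_const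
  have hbd : ∃ b : ℝ, ∀ y, ‖w y‖ ≤ b := by
    refine ⟨b, fun y => ?_⟩
    rw [hw]
    show ‖(if y.2 ∈ W then u (1, y.2) else 0)‖ ≤ b
    split_ifs
    · exact hb _
    · rw [norm_zero]
      exact (norm_nonneg _).trans (hb y)
  have hinv : ∀ (γ : Γ) (y : YS Γ d), w (γ • y) = w y := by
    intro γ y
    rw [hw]
    rfl
  refine ⟨w, hm, hbd, hinv, ⟨hm, hbd, fun γ _ y => hinv γ y, {1}, fun y hy _ => ?_⟩, ?_, ?_⟩
  · rw [Finset.mem_singleton]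
    exact hy
  · intro y hy
    rw [hw]
    exact if_neg hy
  · rintro ⟨γ, p⟩ h1 h2
    have h3 : γ = 1 := h1
    subst h3
    rw [hw]
    exact if_pos h2

theorem AI2D_KZ (Γ : Type) [Group Γ] (L : Γ → ℕ) (K : YS Γ d → YS Γ d → ℂ) (h : KY K) : KZ Γ (dYS L) K := by
  obtain ⟨S, hS⟩ := h.range
  refine ⟨h.meas, h.bdd, h.inv, ((S.sup L : ℕ) : ℝ), fun y y' hne => ?_⟩
  unfold dYS
  exact_mod_cast Finset.le_sup (f := L) (hS y y' hne)

theorem AI2D_proof (hATND : ATND_stmt) (hADMD : ADMD_stmt) (hKPZ : VQ.KPZ_stmt) (hPSY : PSY_stmt) (hLEN : LEN_stmt) (hCTD : CTD_stmt) (hFDE : FDE_stmt) : AI2D_stmt := by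
  intro d Γ _ _ K r0 χ ch k B B' _ hK hPU hch
  obtain ⟨C, hC, hV⟩ := hATND d Γ K k B r0 χ hK hPU
  refine ⟨C, hC, fun A hA => ?_⟩
  obtain ⟨R0, hR0, hV⟩ := hV ch A hch hA
  refine ⟨1 / 6, R0, by norm_num, hR0, ?_⟩
  intro R G Φ f hR hCls hflow hf T hT
  obtain ⟨-, hV⟩ := hV R G Φ hR ⟨hK, hCls, hflow⟩
  obtain ⟨-, hKY, hV⟩ := hV f hf.smooth.continuous
  obtain ⟨F, hFm, hFK, hFu⟩ := hFDE d Γ K hK
  have hFD : FD Γ F := by
    obtain ⟨b, hb⟩ := hK.compact.isBounded.subset_closedBall (0 : V d)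
    refine ⟨hFm, hFu, b, fun x hx => ?_⟩
    have := hb (hFK hx)
    rwa [mem_closedBall_zero_iff] at this
  have hDm : Dm (⊤ : Subgroup Γ) F ({1} : Set Γ) := Or.inl ⟨rfl, hFD, rfl⟩
  obtain ⟨-, -, -, -, hGW, -⟩ := hADMD d Γ K k B G hK hCls
  obtain ⟨hGWm, -, hGWv⟩ := hGW r0 2 R
  have hWm : MeasurableSet (AI2D_W G r0 R) := AI2D_sec Γ hGWm
  have hcnt : Countable Γ := hCTD d Γ K hK
  obtain ⟨L, hL1, hL2, hL3, hL4⟩ := hLEN Γ hcnt
  have hPS : PS Γ (YS Γ d) (mW Γ G r0 R) (DT d {1}) (dYS L) := (hPSY d Γ (AI2D_W G r0 R) L hcnt hWm hGWv hL1 hL2 hL3 hL4).1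
  have hKZ := AI2D_KZ Γ L _ hKY
  have hm2 : (mW Γ G r0 R).restrict (DT d {1}) = (mY Γ d).restrict (DT d {1} ∩ GW Γ G r0 2 R) := by
    unfold mW
    exact Measure.restrict_restrict hPS.meas
  have hR1 : 0 < R := by linarith
  have hc0 : 0 ≤ 1 + R ^ (-(1 / 6) : ℝ) := by positivity
  refine ContinuousLinearMap.opNorm_le_bound T hc0 ?_
  intro v0
  refine DenseRange.induction_on (Lp.simpleFunc.denseRange (p := 2) (μ := (mW Γ G r0 R).restrict (DT d {1})) (E := ℂ) (by norm_num)) v0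
    (p := fun v => ‖T v‖ ≤ (1 + R ^ (-(1 / 6) : ℝ)) * ‖v‖)
    (isClosed_le T.continuous.norm (continuous_const.mul continuous_norm)) ?_
  intro a
  obtain ⟨u, hu⟩ : ∃ u : SimpleFunc (YS Γ d) ℂ, u = Lp.simpleFunc.toSimpleFunc a := ⟨_, rfl⟩
  have hua : (u : YS Γ d → ℂ) =ᵐ[(mW Γ G r0 R).restrict (DT d {1})] (a : Lp ℂ 2 ((mW Γ G r0 R).restrict (DT d {1}))) := by
    rw [hu]
    exact Lp.simpleFunc.toSimpleFunc_eq_toFun a
  obtain ⟨w, hwm, hwb, hw4, hw1, hw2, hw3⟩ := AI2D_ext Γ (AI2D_W G r0 R) hWm u u.measurable u.exists_forall_norm_le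
  obtain ⟨v, hv⟩ : ∃ v : Lp ℂ 2 ((mW Γ G r0 R).restrict (DT d {1})), v = a := ⟨_, rfl⟩
  rw [← hv] at hua
  show ‖T a‖ ≤ (1 + R ^ (-(1 / 6) : ℝ)) * ‖(a : Lp ℂ 2 ((mW Γ G r0 R).restrict (DT d {1})))‖
  rw [← hv]
  have hvw : (v : YS Γ d → ℂ) =ᵐ[(mW Γ G r0 R).restrict (DT d {1})] w := by
    have h1 : ∀ᵐ p ∂((mW Γ G r0 R).restrict (DT d {1})), p ∈ DT d ({1} : Set Γ) ∩ GW Γ G r0 2 R := by
      rw [hm2]
      exact ae_restrict_mem (hPS.meas.inter hGWm)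
    filter_upwards [hua, h1] with p hp1 hp2
    rw [← hp1, hw3 p hp2.1 hp2.2]
  have hTv : (T v : YS Γ d → ℂ) =ᵐ[(mW Γ G r0 R).restrict (DT d {1})] Op (KB G Φ r0 χ ch A R f) w := by
    refine (hT v).trans (Filter.Eventually.of_forall fun y => ?_)
    show ∫ z, perZ Γ (KB G Φ r0 χ ch A R f) y z * v z ∂((mW Γ G r0 R).restrict (DT d {1})) = Op (KB G Φ r0 χ ch A R f) w y
    have e1 : ∫ z, perZ Γ (KB G Φ r0 χ ch A R f) y z * v z ∂((mW Γ G r0 R).restrict (DT d {1})) =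
        ∫ z, perZ Γ (KB G Φ r0 χ ch A R f) y z * w z ∂((mW Γ G r0 R).restrict (DT d {1})) := by
      refine integral_congr_ae ?_
      filter_upwards [hvw] with p hp
      rw [hp]
    rw [e1, ((hKPZ Γ (YS Γ d) (mW Γ G r0 R) (DT d {1}) (dYS L) hPS).1 _ hKZ).2.2.2 w hwm hwb hw4 y]
    unfold Op mW
    refine setIntegral_eq_integral_of_forall_compl_eq_zero ?_
    intro q hq
    have : q.2 ∉ AI2D_W G r0 R := fun h => hq h
    rw [hw2 q this, mul_zero]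
  have hn1 : ‖T v‖ ^ 2 = nP G r0 ({1} : Set Γ) 2 R (Op (KB G Φ r0 χ ch A R f) w) := by
    rw [AI2D_norm]
    unfold nP
    rw [← hm2]
    refine integral_congr_ae ?_
    filter_upwards [hTv] with p hp
    rw [hp]
  have hn2 : ‖v‖ ^ 2 = nP G r0 ({1} : Set Γ) 2 R w := by
    rw [AI2D_norm]
    unfold nP
    rw [← hm2]
    refine integral_congr_ae ?_
    filter_upwards [hvw] with p hp
    rw [hp]
  have h3 := hV (⊤ : Subgroup Γ) F ({1} : Set Γ) w hDm hw1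
  rw [← hn1, ← hn2, ← mul_pow] at h3
  exact (pow_le_pow_iff_left₀ (norm_nonneg _) (mul_nonneg hc0 (norm_nonneg _)) two_ne_zero).1 h3

end

end Pool.Agent.VD
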