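import Pool.Agent.helper55.VD.SpecE1

/-!
# Project VD (MP_07c750_an), row `vd:EHI`: the Laplacian is invariant under isometries
-/

set_option autoImplicit false

open scoped ContDiff Topology InnerProductSpace ComplexConjugate
open MeasureTheory Filter Set

namespace Pool.Agent.VD

noncomputable section

/-- the determinant of a metric in other coordinates -/
theorem EHI_det {d : ℕ} (A B D : V d →L[ℝ] V d) (h : ∀ u v, ⟪B (D u), D v⟫_ℝ = ⟪A u, v⟫_ℝ) : A.det = D.det ^ 2 * B.det := by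
  have h1 : (A : V d →ₗ[ℝ] V d) =
      LinearMap.adjoint (D : V d →ₗ[ℝ] V d) ∘ₗ (B : V d →ₗ[ℝ] V d) ∘ₗ (D : V d →ₗ[ℝ] V d) := by
    apply LinearMap.ext
    intro u
    apply ext_inner_right ℝ
    intro v
    rw [LinearMap.comp_apply, LinearMap.adjoint_inner_left]
    exact (h u v).symm
  have h2 : LinearMap.det (LinearMap.adjoint (D : V d →ₗ[ℝ] V d)) = LinearMap.det (D : V d →ₗ[ℝ] V d) := by
    rw [← LinearMap.det_toMatrix (EuclideanSpace.basisFun (Fin d) ℝ).toBasis, LinearMap.toMatrix_adjoint,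
      Matrix.det_conjTranspose, LinearMap.det_toMatrix]
    exact star_trivial _
  have h3 : LinearMap.det (A : V d →ₗ[ℝ] V d) = LinearMap.det (D : V d →ₗ[ℝ] V d) *
      (LinearMap.det (B : V d →ₗ[ℝ] V d) * LinearMap.det (D : V d →ₗ[ℝ] V d)) := by
    rw [h1, LinearMap.det_comp, LinearMap.det_comp, h2]
  show LinearMap.det (A : V d →ₗ[ℝ] V d) = LinearMap.det (D : V d →ₗ[ℝ] V d) ^ 2 * LinearMap.det (B : V d →ₗ[ℝ] V d)
  rw [h3]
  ring

/-- an isometry is surjective on tangent vectors -/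
theorem EHI_surj {d : ℕ} (A B D : V d →L[ℝ] V d) (hA : ∀ u, u ≠ 0 → 0 < ⟪A u, u⟫_ℝ)
    (h : ∀ u v, ⟪B (D u), D v⟫_ℝ = ⟪A u, v⟫_ℝ) : Function.Surjective D := by
  have h1 : Function.Injective (D : V d →ₗ[ℝ] V d) := by
    rw [injective_iff_map_eq_zero]
    intro u hu
    by_contra h0
    have h2 := hA u h0
    rw [← h u u] at h2
    have h3 : D u = 0 := hu
    rw [h3, map_zero, inner_zero_left] at h2
    exact lt_irrefl _ h2
  exact LinearMap.surjective_of_injective h1

theorem EHI_grad {d : ℕ} (ψ : V d → ℝ) (x v : V d) : ⟪gradient ψ x, v⟫_ℝ = fderiv ℝ ψ x v := by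
  unfold gradient
  exact InnerProductSpace.toDual_symm_apply

theorem EHI_gsum {d : ℕ} (ψ : V d → ℝ) (x : V d) :
    gradient ψ x = ∑ i : Fin d, fderiv ℝ ψ x (EuclideanSpace.single i 1) • (EuclideanSpace.single i (1 : ℝ) : V d) := by
  have h1 := (EuclideanSpace.basisFun (Fin d) ℝ).sum_repr' (gradient ψ x)
  rw [← h1]
  refine Finset.sum_congr rfl fun i _ => ?_
  rw [EuclideanSpace.basisFun_apply, real_inner_comm, EHI_grad]

/-- the change of the gradient -/
theorem EHI_dir {d : ℕ} {A B D : V d →L[ℝ] V d} (hA : ∀ u, u ≠ 0 → 0 < ⟪A u, u⟫_ℝ)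
    (h : ∀ u v, ⟪B (D u), D v⟫_ℝ = ⟪A u, v⟫_ℝ) (hAi : ∀ u, A (A.inverse u) = u) (hBi : ∀ u, B.inverse (B u) = u)
    (a b : V d) (hab : ∀ v, ⟪a, v⟫_ℝ = ⟪b, D v⟫_ℝ) : D (A.inverse a) = B.inverse b := by
  have h1 : B (D (A.inverse a)) = b := by
    apply ext_inner_right ℝ
    intro v
    obtain ⟨w, rfl⟩ := EHI_surj A B D hA h v
    rw [h, hAi, hab]
  rw [← h1, hBi]

/-- Green's first formula -/
theorem EHI_green (hEHD : EHD_stmt) {d : ℕ} {G : V d → V d →L[ℝ] V d} (hG : IsMetric G) {φ : V d → ℂ} (hφ : ContDiff ℝ 2 φ)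
    {ψ : V d → ℝ} (hψ : ContDiff ℝ ∞ ψ) (hc : HasCompactSupport ψ) :
    ∫ x, ψ x • (((dens G x : ℝ) : ℂ) * lap G φ x) =
      - ∫ x, ((dens G x : ℝ) : ℂ) * fderiv ℝ φ x ((G x).inverse (gradient ψ x)) := by
  obtain ⟨hpos, hdens, hinv, -⟩ := hEHD d G hG
  set e : Fin d → V d := fun i => EuclideanSpace.single i (1 : ℝ) with he
  set F : Fin d → V d → ℂ := fun i y => ((dens G y : ℝ) : ℂ) * fderiv ℝ φ y ((G y).inverse (e i)) with hF
  have hFC : ∀ i, ContDiff ℝ 1 (F i) := by
    intro i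
    have h1 : ContDiff ℝ 1 (fun y => ((dens G y : ℝ) : ℂ)) :=
      Complex.ofRealCLM.contDiff.comp (hdens.of_le (by norm_num))
    have h2 : ContDiff ℝ 1 (fderiv ℝ φ) := hφ.fderiv_right (m := 1) (by norm_num)
    have h3 : ContDiff ℝ 1 (fun y => (G y).inverse (e i)) := (hinv.of_le (by norm_num)).clm_apply contDiff_const
    exact h1.mul (h2.clm_apply h3)
  have hFd : ∀ i, Differentiable ℝ (F i) := fun i => (hFC i).differentiable (by norm_num)
  have hFc : ∀ i, Continuous (F i) := fun i => (hFC i).continuous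
  have hFf : ∀ i, Continuous (fun x => fderiv ℝ (F i) x (e i)) := fun i =>
    ((hFC i).continuous_fderiv (by norm_num)).clm_apply continuous_const
  have hψc : Continuous ψ := hψ.continuous
  have hψf : ∀ i, Continuous (fun x => fderiv ℝ ψ x (e i)) := fun i =>
    (hψ.continuous_fderiv (by norm_num)).clm_apply continuous_const
  have hlap : ∀ x, ψ x • (((dens G x : ℝ) : ℂ) * lap G φ x) = ∑ i, ψ x • fderiv ℝ (F i) x (e i) := by
    intro x
    have h1 : ((dens G x : ℝ) : ℂ) ≠ 0 := by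
      exact_mod_cast (hpos x).2.ne'
    rw [← Finset.smul_sum]
    unfold lap
    rw [Complex.ofReal_inv, ← mul_assoc, mul_inv_cancel₀ h1, one_mul]
  have hI1 : ∀ i, Integrable (fun x => ψ x • fderiv ℝ (F i) x (e i)) := fun i =>
    (hψc.smul (hFf i)).integrable_of_hasCompactSupport hc.smul_right
  have hI2 : ∀ i, Integrable (fun x => fderiv ℝ ψ x (e i) • F i x) := fun i =>
    ((hψf i).smul (hFc i)).integrable_of_hasCompactSupport (hc.fderiv_apply (𝕜 := ℝ) (e i)).smul_right
  have hI3 : ∀ i, Integrable (fun x => ψ x • F i x) := fun i =>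
    (hψc.smul (hFc i)).integrable_of_hasCompactSupport hc.smul_right
  have hdir : ∀ x, ((dens G x : ℝ) : ℂ) * fderiv ℝ φ x ((G x).inverse (gradient ψ x)) = ∑ i, fderiv ℝ ψ x (e i) • F i x := by
    intro x
    rw [EHI_gsum ψ x, map_sum, map_sum, Finset.mul_sum]
    refine Finset.sum_congr rfl fun i _ => ?_
    rw [map_smul, map_smul]
    show ((dens G x : ℝ) : ℂ) * (fderiv ℝ ψ x (e i) • fderiv ℝ φ x ((G x).inverse (e i))) =
      fderiv ℝ ψ x (e i) • (((dens G x : ℝ) : ℂ) * fderiv ℝ φ x ((G x).inverse (e i)))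
    rw [mul_smul_comm]
  simp_rw [hlap, hdir]
  rw [integral_finset_sum _ fun i _ => hI1 i, integral_finset_sum _ fun i _ => hI2 i, ← Finset.sum_neg_distrib]
  refine Finset.sum_congr rfl fun i _ => ?_
  exact integral_smul_fderiv_eq_neg_fderiv_smul_of_integrable (hI2 i) (hI1 i) (hI3 i)
    (fun x _ => (hψ.differentiable (by norm_num)) x) (fun x _ => (hFd i) x)

/-- **EHI** -/
theorem EHI_proof (hEHD : EHD_stmt) (hEHC : EHC_stmt) : EHI_stmt := by
  intro d Γ _ _ G φ hG hsm hiso hφ γ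
  obtain ⟨hpos, hdens, hinv, hinv2, -⟩ := hEHD d G hG
  -- the diffeomorphism
  set T : V d → V d := fun x => γ • x with hT
  have hTs : ContDiff ℝ ∞ T := hsm γ
  have hTd : Differentiable ℝ T := hTs.differentiable (by norm_num)
  have hTs' : ContDiff ℝ ∞ (fun x : V d => γ⁻¹ • x) := hsm γ⁻¹
  have hTinj : Function.Injective T := MulAction.injective γ
  have hTsurj : Function.Surjective T := MulAction.surjective γ
  let E : V d ≃ₜ V d :=
    { toFun := fun x => γ⁻¹ • x
      invFun := fun x => γ • x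
      left_inv := fun x => smul_inv_smul γ x
      right_inv := fun x => inv_smul_smul γ x
      continuous_toFun := hTs'.continuous
      continuous_invFun := hTs.continuous }
  have hφT : ContDiff ℝ 2 (fun y => φ (T y)) := hφ.comp (hTs.of_le (by norm_cast))
  have hisoT : ∀ x u v, ⟪G (T x) (fderiv ℝ T x u), fderiv ℝ T x v⟫_ℝ = ⟪G x u, v⟫_ℝ := fun x u v => hiso γ x u v
  have hdensT : ∀ x, dens G x = |(fderiv ℝ T x).det| * dens G (T x) := by
    intro x
    unfold dens
    rw [EHI_det (G x) (G (T x)) (fderiv ℝ T x) (hisoT x), Real.sqrt_mul (sq_nonneg _), Real.sqrt_sq_eq_abs]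
  -- substitution
  have hsub : ∀ g : V d → ℂ, ∫ y, g y = ∫ x, |(fderiv ℝ T x).det| • g (T x) := by
    intro g
    have h1 := integral_image_eq_integral_abs_det_fderiv_smul (volume : Measure (V d)) (s := univ) (f := T)
      (f' := fun x => fderiv ℝ T x) MeasurableSet.univ (fun x _ => (hTd x).hasFDerivAt.hasFDerivWithinAt)
      (hTinj.injOn) g
    rw [image_univ, hTsurj.range_eq, setIntegral_univ, setIntegral_univ] at h1
    exact h1
  have hcl : Continuous (lap G φ) := ((hEHC d G hG).1 φ hφ).1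
  have hclT : Continuous (lap G (fun y => φ (T y))) := ((hEHC d G hG).1 _ hφT).1
  have hdc : Continuous (fun x => ((dens G x : ℝ) : ℂ)) := Complex.continuous_ofReal.comp hdens.continuous
  -- the weak identity
  have hweak : ∀ ψ : V d → ℝ, ContDiff ℝ ∞ ψ → HasCompactSupport ψ →
      ∫ x, ψ x • (((dens G x : ℝ) : ℂ) * (lap G (fun y => φ (T y)) x - lap G φ (T x))) = 0 := by
    intro ψ hψ hc
    -- the transported test function
    set ψ' : V d → ℝ := fun x => ψ (γ⁻¹ • x) with hψ'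
    have hψ's : ContDiff ℝ ∞ ψ' := hψ.comp hTs'
    have hc' : HasCompactSupport ψ' := hc.comp_homeomorph E
    have hψT : ∀ x, ψ' (T x) = ψ x := by
      intro x
      show ψ (γ⁻¹ • γ • x) = ψ x
      rw [inv_smul_smul]
    have hψfun : (fun x => ψ' (T x)) = ψ := funext hψT
    have hg1 := EHI_green hEHD hG hφT hψ hc
    have hg2 := EHI_green hEHD hG hφ hψ's hc'
    have hI1 : Integrable (fun x => ψ x • (((dens G x : ℝ) : ℂ) * lap G (fun y => φ (T y)) x)) :=
      (hψ.continuous.smul (hdc.mul hclT)).integrable_of_hasCompactSupport hc.smul_right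
    have hI2 : Integrable (fun x => ψ x • (((dens G x : ℝ) : ℂ) * lap G φ (T x))) :=
      (hψ.continuous.smul (hdc.mul (hcl.comp hTs.continuous))).integrable_of_hasCompactSupport hc.smul_right
    have h1 : ∀ x, ((dens G x : ℝ) : ℂ) * fderiv ℝ (fun y => φ (T y)) x ((G x).inverse (gradient ψ x)) =
        |(fderiv ℝ T x).det| • (((dens G (T x) : ℝ) : ℂ) * fderiv ℝ φ (T x) ((G (T x)).inverse (gradient ψ' (T x)))) := by
      intro x
      have h2 : fderiv ℝ (fun y => φ (T y)) x = (fderiv ℝ φ (T x)).comp (fderiv ℝ T x) :=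
        fderiv_comp x ((hφ.differentiable (by norm_num)) (T x)) (hTd x)
      have h3 : ∀ v, ⟪gradient ψ x, v⟫_ℝ = ⟪gradient ψ' (T x), fderiv ℝ T x v⟫_ℝ := by
        intro v
        rw [EHI_grad, EHI_grad]
        have h4 : fderiv ℝ ψ x = (fderiv ℝ ψ' (T x)).comp (fderiv ℝ T x) := by
          rw [← hψfun]
          exact fderiv_comp x ((hψ's.differentiable (by norm_num)) (T x)) (hTd x)
        rw [h4]
        rfl
      have h5 := EHI_dir (hG.pos x) (hisoT x) (fun u => (hinv2 x u).1) (fun u => (hinv2 (T x) u).2) _ _ h3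
      rw [h2, ContinuousLinearMap.comp_apply, h5, hdensT x, Complex.ofReal_mul, Complex.real_smul]
      ring
    have h2 : ∫ x, ψ x • (((dens G x : ℝ) : ℂ) * lap G (fun y => φ (T y)) x) =
        ∫ x, ψ x • (((dens G x : ℝ) : ℂ) * lap G φ (T x)) := by
      rw [hg1]
      simp_rw [h1]
      rw [← hsub (fun y => ((dens G y : ℝ) : ℂ) * fderiv ℝ φ y ((G y).inverse (gradient ψ' y))), ← hg2,
        hsub (fun y => ψ' y • (((dens G y : ℝ) : ℂ) * lap G φ y))]
      refine integral_congr_ae (Eventually.of_forall fun x => ?_)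
      show |(fderiv ℝ T x).det| • (ψ' (T x) • (((dens G (T x) : ℝ) : ℂ) * lap G φ (T x))) =
        ψ x • (((dens G x : ℝ) : ℂ) * lap G φ (T x))
      rw [hψT, hdensT x, Complex.ofReal_mul, Complex.real_smul, Complex.real_smul, Complex.real_smul]
      ring
    have h3 : ∀ x, ψ x • (((dens G x : ℝ) : ℂ) * (lap G (fun y => φ (T y)) x - lap G φ (T x))) =
        ψ x • (((dens G x : ℝ) : ℂ) * lap G (fun y => φ (T y)) x) - ψ x • (((dens G x : ℝ) : ℂ) * lap G φ (T x)) := by
      intro x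
      rw [mul_sub, smul_sub]
    simp_rw [h3]
    rw [integral_sub hI1 hI2, h2, sub_self]
  -- continuity
  have hcont : Continuous (fun x => ((dens G x : ℝ) : ℂ) * (lap G (fun y => φ (T y)) x - lap G φ (T x))) :=
    hdc.mul (hclT.sub (hcl.comp hTs.continuous))
  have hae := ae_eq_zero_of_integral_contDiff_smul_eq_zero hcont.locallyIntegrable hweak
  have hall : (fun x => ((dens G x : ℝ) : ℂ) * (lap G (fun y => φ (T y)) x - lap G φ (T x))) = fun _ => 0 :=
    (hcont.ae_eq_iff_eq (μ := (volume : Measure (V d))) continuous_const).1 hae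
  intro x
  have h1 := congrFun hall x
  have h2 : ((dens G x : ℝ) : ℂ) ≠ 0 := by exact_mod_cast (hpos x).2.ne'
  exact sub_eq_zero.1 ((mul_eq_zero.1 h1).resolve_left h2)

end

end Pool.Agent.VD
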