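import Pool.Agent.helper93.VD.SpecB4a

/-! Row LPN of project VD: the induction for the large deviations. -/

set_option autoImplicit false

open MeasureTheory Filter Set Topology
open scoped ENNReal

namespace Pool.Agent.VDL

open Pool.Agent.VDE (BB av)
open Pool.Agent.VD (W Z)

noncomputable section

section

variable {S : Type} [TopologicalSpace S] [MeasurableSpace S] {μ : Measure S} {d : S → S → ℝ} {f : ℝ → S → S} {ε C : ℝ}

/-- the averages of two points which stay close differ by at most `e / 16` -/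
theorem LPN_av (H : VL μ d f ε C) {h : S → ℝ} {M e T0 v0 : ℝ} (K : WK μ d f h M e ε T0 v0) (x y : S)
    (hxy : ∀ s ∈ Icc (0 : ℝ) T0, d (f s x) (f s y) ≤ 16 * ε) : |av f h T0 x - av f h T0 y| ≤ e / 16 := by
  have hT := K.hT
  have hc : ∀ w : S, Continuous fun t : ℝ => h (f t w) := fun w => by
    have h1 : Continuous fun t : ℝ => (t, w) := by fun_prop
    exact K.hc.comp (H.fcn.comp h1)
  have h1 : av f h T0 x - av f h T0 y = T0⁻¹ * ∫ t in (0 : ℝ)..T0, (h (f t x) - h (f t y)) := by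
    unfold av
    rw [intervalIntegral.integral_sub ((hc x).intervalIntegrable _ _) ((hc y).intervalIntegrable _ _)]
    ring
  have h2 : ‖∫ t in (0 : ℝ)..T0, (h (f t x) - h (f t y))‖ ≤ e / 16 * |T0 - 0| := by
    refine intervalIntegral.norm_integral_le_of_norm_le_const fun t ht => ?_
    rw [uIoc_of_le hT.le] at ht
    rw [Real.norm_eq_abs]
    exact K.hu _ _ (hxy t ⟨ht.1.le, ht.2⟩)
  rw [h1, abs_mul, abs_of_pos (inv_pos.mpr hT)]
  rw [Real.norm_eq_abs, sub_zero, abs_of_pos hT] at h2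
  calc T0⁻¹ * |∫ t in (0 : ℝ)..T0, (h (f t x) - h (f t y))| ≤ T0⁻¹ * (e / 16 * T0) := by
        exact mul_le_mul_of_nonneg_left h2 (inv_pos.mpr hT).le
    _ = e / 16 := by field_simp

theorem LPN_zero (H : VL μ d f ε C) (h : S → ℝ) (M e T0 z : ℝ) (x : S) (A : Set S) (hA : ∀ w ∈ A, d x w ≤ ε) (hs : Sep d f (((0 : ℕ) : ℝ) * T0) (2 * ε) A) :
    ∑' w : A, ENNReal.ofReal (z ^ nb f h M e T0 0 w) * μ (BB d f (((0 : ℕ) : ℝ) * T0) w (16 * ε)) ≤ ENNReal.ofReal C := by
  have hsub : ∀ w ∈ A, ∀ v ∈ A, w = v := by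
    intro w hw v hv
    by_contra hne
    obtain ⟨s, hs1, hs2⟩ := hs w hw v hv hne
    have hs3 : s = 0 := by
      have h1 := hs1.1
      have h2 := hs1.2
      rw [Nat.cast_zero, zero_mul] at h2
      exact le_antisymm h2 h1
    rw [hs3, H.f0, H.f0] at hs2
    have h3 := H.dt w x v
    rw [H.ds w x] at h3
    have h4 := hA w hw
    have h5 := hA v hv
    linarith
  rcases A.eq_empty_or_nonempty with hE | ⟨a, ha⟩
  · subst hE
    simp
  · have h1 : ∀ w : A, w ≠ ⟨a, ha⟩ → ENNReal.ofReal (z ^ nb f h M e T0 0 w) * μ (BB d f (((0 : ℕ) : ℝ) * T0) w (16 * ε)) = 0 := by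
      intro w hw
      exact absurd (Subtype.ext (hsub w w.2 a ha)) hw
    rw [tsum_eq_single (⟨a, ha⟩ : A) h1]
    have h2 : nb f h M e T0 0 a = 0 := rfl
    rw [Nat.cast_zero, zero_mul]
    show ENNReal.ofReal (z ^ nb f h M e T0 0 a) * μ (BB d f 0 a (16 * ε)) ≤ ENNReal.ofReal C
    rw [h2, pow_zero, ENNReal.ofReal_one, one_mul]
    exact H.one a

/-- one term -/
theorem LPN_term (H : VL μ d f ε C) {h : S → ℝ} {M e T0 v0 : ℝ} (K : WK μ d f h M e ε T0 v0) {z : ℝ} (hz : 1 ≤ z) (n : ℕ) (w y : S)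
    (hyw : ∀ s ∈ Icc (0 : ℝ) T0, d (f s y) (f s w) ≤ ε) :
    ENNReal.ofReal (z ^ nb f h M e T0 (n + 1) w) * μ (BB d f (((n + 1 : ℕ) : ℝ) * T0) w (16 * ε)) ≤
      (ENNReal.ofReal C * (open Classical in (μ (BB d f T0 y (16 * ε)) * (if e / 4 ≤ |av f h T0 y - M| then ENNReal.ofReal (1 + z) else 1)))) *
        (ENNReal.ofReal (z ^ nb f h M e T0 n (f T0 w)) * μ (BB d f ((n : ℝ) * T0) (f T0 w) (16 * ε))) := by
  classical
  have hep := H.ep
  have hT := K.hT
  have he := K.ep
  have h1 : (((n + 1 : ℕ) : ℝ) * T0) = T0 + (n : ℝ) * T0 := by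
    push_cast
    ring
  have h2 := H.up w T0 ((n : ℝ) * T0) hT.le (by positivity)
  have h3 : BB d f T0 w (ε / 16) ⊆ BB d f T0 y (16 * ε) := by
    intro p hp s hs
    have h4 := hp s hs
    have h5 := H.dt (f s y) (f s w) (f s p)
    have h6 := hyw s hs
    linarith
  have h4 : BB d f ((n : ℝ) * T0) (f T0 w) (ε / 16) ⊆ BB d f ((n : ℝ) * T0) (f T0 w) (16 * ε) := by
    intro p hp s hs
    have h5 := hp s hs
    linarith
  have h5 : μ (BB d f (((n + 1 : ℕ) : ℝ) * T0) w (16 * ε)) ≤ ENNReal.ofReal C * (μ (BB d f T0 y (16 * ε)) * μ (BB d f ((n : ℝ) * T0) (f T0 w) (16 * ε))) := by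
    rw [h1]
    refine h2.trans ?_
    gcongr
  have h6 : ENNReal.ofReal (z ^ nb f h M e T0 (n + 1) w) ≤ (open Classical in (if e / 4 ≤ |av f h T0 y - M| then ENNReal.ofReal (1 + z) else 1)) * ENNReal.ofReal (z ^ nb f h M e T0 n (f T0 w)) := by
    have h7 : nb f h M e T0 (n + 1) w = (open Classical in (if e / 2 ≤ |av f h T0 w - M| then 1 else 0)) + nb f h M e T0 n (f T0 w) := rfl
    rw [h7, pow_add, ENNReal.ofReal_mul (by positivity)]
    refine mul_le_mul_left ?_ _
    by_cases hb : e / 2 ≤ |av f h T0 w - M|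
    · have hb' : e / 4 ≤ |av f h T0 y - M| := by
        have h8 := LPN_av H K y w fun s hs => by
          have := hyw s hs
          linarith
        have h9 : |av f h T0 w - M| ≤ |av f h T0 y - M| + |av f h T0 y - av f h T0 w| := by
          have : av f h T0 w - M = (av f h T0 y - M) - (av f h T0 y - av f h T0 w) := by ring
          rw [this]
          exact abs_sub _ _
        linarith
      rw [if_pos hb, if_pos hb', pow_one]
      exact ENNReal.ofReal_le_ofReal (by linarith)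
    · rw [if_neg hb, pow_zero, ENNReal.ofReal_one]
      split_ifs
      · rw [← ENNReal.ofReal_one]
        exact ENNReal.ofReal_le_ofReal (by linarith)
      · exact le_refl _
  refine (mul_le_mul' h6 h5).trans (le_of_eq ?_)
  ring

end

theorem LPN_step (hLNT : LNT_stmt) (hLLS : LLS_stmt) (S : Type) [TopologicalSpace S] [SecondCountableTopology S] [MeasurableSpace S] [BorelSpace S] (μ : Measure S) (d : S → S → ℝ) (f : ℝ → S → S) (ε C : ℝ)
    (H : VL μ d f ε C) (h : S → ℝ) (M e T0 v0 z : ℝ) (K : WK μ d f h M e ε T0 v0) (hz : 1 ≤ z) (n : ℕ)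
    (ih : ∀ (x : S) (A : Set S), A.Countable → (∀ w ∈ A, d x w ≤ ε) → Sep d f (n * T0) (2 * ε) A →
      ∑' w : A, ENNReal.ofReal (z ^ nb f h M e T0 n w) * μ (BB d f (n * T0) w (16 * ε)) ≤ ENNReal.ofReal (C * (C ^ 3 * (C + z * v0)) ^ n))
    (x : S) (A : Set S) (hAc : A.Countable) (hA : ∀ w ∈ A, d x w ≤ ε) (hs : Sep d f (((n + 1 : ℕ) : ℝ) * T0) (2 * ε) A) :
    ∑' w : A, ENNReal.ofReal (z ^ nb f h M e T0 (n + 1) w) * μ (BB d f (((n + 1 : ℕ) : ℝ) * T0) w (16 * ε)) ≤ ENNReal.ofReal (C * (C ^ 3 * (C + z * v0)) ^ (n + 1)) := by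
  classical
  have hep := H.ep
  have hT := K.hT
  have hC := H.hC
  have hv := K.hv
  obtain ⟨hLN, -⟩ := hLNT S S μ d f ε C H
  obtain ⟨E, -, hEc, hEs, hEm⟩ := hLN T0 ε id univ hep
  have hEm' : ∀ w : S, ∃ y ∈ E, ∀ s ∈ Icc (0 : ℝ) T0, d (f s y) (f s w) ≤ ε := fun w => hEm w (mem_univ w)
  choose y hyE hy using hEm'
  set g : A → E := fun w => ⟨y w, hyE w⟩ with hg
  set F : A → ENNReal := fun w => ENNReal.ofReal (z ^ nb f h M e T0 (n + 1) w) * μ (BB d f (((n + 1 : ℕ) : ℝ) * T0) w (16 * ε)) with hF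
  have hinj : Function.Injective (f T0) := by
    intro a b hab
    have h1 : ∀ p, f (-T0) (f T0 p) = p := fun p => by
      rw [← H.fa, neg_add_cancel, H.f0]
    rw [← h1 a, ← h1 b, hab]
  have hfib : ∀ p : E, ∑' w : {w : A // g w = p}, F w ≤ ENNReal.ofReal (C * (C * (C ^ 3 * (C + z * v0)) ^ n)) *
      (open Classical in if d x p ≤ 4 * ε then μ (BB d f T0 p (16 * ε)) * (if e / 4 ≤ |av f h T0 p - M| then ENNReal.ofReal (1 + z) else 1) else 0) := by
    intro p
    by_cases hd : d x p ≤ 4 * ε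
    · rw [if_pos hd]
      set B : Set S := f T0 '' {w | w ∈ A ∧ y w = p} with hB
      have hBc : B.Countable := (hAc.mono fun w hw => hw.1).image _
      have hB1 : ∀ w' ∈ B, d (f T0 p) w' ≤ ε := by
        rintro _ ⟨w, ⟨hw1, hw2⟩, rfl⟩
        rw [← hw2]
        exact hy w T0 ⟨hT.le, le_refl _⟩
      have hB2 : Sep d f (n * T0) (2 * ε) B := by
        rintro _ ⟨w, ⟨hw1, hw2⟩, rfl⟩ _ ⟨v, ⟨hv1, hv2⟩, rfl⟩ hne
        have hwv : w ≠ v := fun hh => hne (by rw [hh])
        obtain ⟨s, hs1, hs2⟩ := hs w hw1 v hv1 hwv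
        have hsT : T0 < s := by
          by_contra hcon
          have hs3 : s ∈ Icc (0 : ℝ) T0 := ⟨hs1.1, not_lt.mp hcon⟩
          have h1 := hy w s hs3
          have h2 := hy v s hs3
          rw [hw2] at h1
          rw [hv2] at h2
          have h3 := H.dt (f s w) (f s p) (f s v)
          rw [H.ds (f s w) (f s p)] at h3
          linarith
        refine ⟨s - T0, ⟨by linarith, ?_⟩, ?_⟩
        · have h4 := hs1.2
          push_cast at h4
          linarith
        · rw [← H.fa, ← H.fa, sub_add_cancel]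
          exact hs2
      have h5 := ih (f T0 p) B hBc hB1 hB2
      have hmem : ∀ w : {w : A // g w = p}, f T0 w ∈ B := by
        intro w
        refine ⟨w, ⟨w.1.2, ?_⟩, rfl⟩
        have := congrArg Subtype.val w.2
        exact this
      have h6 : ∑' w : {w : A // g w = p}, ENNReal.ofReal (z ^ nb f h M e T0 n (f T0 w)) * μ (BB d f ((n : ℝ) * T0) (f T0 w) (16 * ε)) ≤
          ∑' w : B, ENNReal.ofReal (z ^ nb f h M e T0 n w) * μ (BB d f (n * T0) w (16 * ε)) := by
        refine ENNReal.tsum_comp_le_tsum_of_injective (f := fun w : {w : A // g w = p} => (⟨f T0 w, hmem w⟩ : B)) ?_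
          (fun w : B => ENNReal.ofReal (z ^ nb f h M e T0 n w) * μ (BB d f (n * T0) w (16 * ε)))
        intro a b hab
        have h7 : f T0 a = f T0 b := congrArg Subtype.val hab
        exact Subtype.ext (Subtype.ext (hinj h7))
      have h8 : ∀ w : {w : A // g w = p}, F w ≤ (ENNReal.ofReal C * (open Classical in (μ (BB d f T0 p (16 * ε)) * (if e / 4 ≤ |av f h T0 p - M| then ENNReal.ofReal (1 + z) else 1)))) *
          (ENNReal.ofReal (z ^ nb f h M e T0 n (f T0 w)) * μ (BB d f ((n : ℝ) * T0) (f T0 w) (16 * ε))) := by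
        intro w
        refine LPN_term H K hz n w p ?_
        intro s hs'
        have h9 := hy w s hs'
        have h10 : y w = p := congrArg Subtype.val w.2
        rw [h10] at h9
        exact h9
      refine (ENNReal.tsum_le_tsum h8).trans ?_
      rw [ENNReal.tsum_mul_left]
      refine (mul_le_mul_right (h6.trans h5) _).trans (le_of_eq ?_)
      have hsp : ENNReal.ofReal (C * (C * (C ^ 3 * (C + z * v0)) ^ n)) = ENNReal.ofReal C * ENNReal.ofReal (C * (C ^ 3 * (C + z * v0)) ^ n) := ENNReal.ofReal_mul (by linarith)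
      rw [hsp]
      exact mul_right_comm _ _ _
    · have hemp : IsEmpty {w : A // g w = p} := by
        refine ⟨fun w => hd ?_⟩
        have h10 : y w = p := congrArg Subtype.val w.2
        have h1 := hy w 0 ⟨le_refl _, hT.le⟩
        rw [H.f0, H.f0, h10] at h1
        have h2 := hA w w.1.2
        have h3 := H.dt x w p
        rw [H.ds w p] at h3
        linarith
      rw [tsum_empty]
      exact bot_le
  have h11 : ∑' w : A, F w = ∑' p : E, ∑' w : {w : A // g w = p}, F w := by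
    have h12 := ENNReal.tsum_sigma (fun (p : E) (w : {w : A // g w = p}) => F w)
    exact ((Equiv.sigmaFiberEquiv g).tsum_eq F).symm.trans h12
  rw [h11]
  refine (ENNReal.tsum_le_tsum hfib).trans ?_
  rw [ENNReal.tsum_mul_left]
  have h12 := hLLS S μ d f ε C H h M e T0 v0 z K (by linarith) E hEc hEs x
  refine (mul_le_mul_right h12 _).trans ?_
  rw [← ENNReal.ofReal_mul (by positivity)]
  refine ENNReal.ofReal_le_ofReal (le_of_eq ?_)
  ring

theorem LPN_proof (hLNT : LNT_stmt) (hLLS : LLS_stmt) : LPN_stmt := by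
  intro S _ _ _ _ μ d f ε C H h M e T0 v0 z K hz n
  induction n with
  | zero =>
    intro x A _ hA hs
    have h1 := LPN_zero H h M e T0 z x A hA hs
    rw [pow_zero, mul_one]
    exact h1
  | succ n ih =>
    intro x A hAc hA hs
    exact LPN_step hLNT hLLS S μ d f ε C H h M e T0 v0 z K hz n ih x A hAc hA hs

end

end Pool.Agent.VDL
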