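import Pool.Agent.helper11.VD.SpecC

/-! Row SBY of project VD: crude bound for the chains. -/

set_option autoImplicit false

open scoped ContDiff Topology InnerProductSpace ENNReal ComplexConjugate
open MeasureTheory Filter Set

namespace Pool.Agent.VD

open Pool.Agent.RPQ (PN PJ UN upd IsOp nst)
open Pool.Agent.VQ (PS KZ perZ cmZ stZ wdZ itZ InvS AdZ vz mZ wM inZ phZ qZ rk)

noncomputable section

variable {d : ℕ}

/-- the window measure is sigma-finite -/
theorem SBY_sf (Γ : Type) (hc : Countable Γ) (W : Set (P d)) : SigmaFinite (mWW Γ W) := by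
  letI : MeasurableSpace Γ := ⊤
  have _ : MeasurableSingletonClass Γ := ⟨fun _ => trivial⟩
  haveI : SigmaFinite (mY Γ d) := by
    show SigmaFinite ((Measure.count : Measure Γ).prod (volume : Measure (P d)))
    infer_instance
  show SigmaFinite ((mY Γ d).restrict {y | y.2 ∈ W})
  infer_instance

theorem SBY_mass (Γ : Type) [Group Γ] (hc : Countable Γ) (W : Set (P d)) (hW : MeasurableSet W) (S0 : Finset Γ) (g : Γ) :
    mWW Γ W {p : YS Γ d | g⁻¹ * p.1 ∈ S0} ≤ (S0.card : ENNReal) * volume W := by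
  classical
  letI : MeasurableSpace Γ := ⊤
  have _ : MeasurableSingletonClass Γ := ⟨fun _ => trivial⟩
  have hm : MeasurableSet {y : YS Γ d | y.2 ∈ W} := by
    show MeasurableSet ((Prod.snd : Γ × P d → P d) ⁻¹' W)
    exact measurable_snd hW
  have h1 : mWW Γ W {p : YS Γ d | g⁻¹ * p.1 ∈ S0} = mY Γ d ({p : YS Γ d | g⁻¹ * p.1 ∈ S0} ∩ {y | y.2 ∈ W}) :=
    Measure.restrict_apply' hm
  rw [h1]
  have h2 : ({p : YS Γ d | g⁻¹ * p.1 ∈ S0} ∩ {y | y.2 ∈ W} : Set (YS Γ d)) = ({γ : Γ | g⁻¹ * γ ∈ S0} ×ˢ W : Set (Γ × P d)) := by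
    ext p
    rfl
  rw [h2]
  have h3 : mY Γ d ({γ : Γ | g⁻¹ * γ ∈ S0} ×ˢ W : Set (Γ × P d)) = Measure.count {γ : Γ | g⁻¹ * γ ∈ S0} * volume W :=
    Measure.prod_prod _ _
  rw [h3]
  gcongr
  have h4 : {γ : Γ | g⁻¹ * γ ∈ S0} = ((S0.image (fun s => g * s) : Finset Γ) : Set Γ) := by
    ext γ
    simp only [mem_setOf_eq, Finset.coe_image, mem_image, Finset.mem_coe]
    constructor
    · intro h
      exact ⟨_, h, by simp⟩
    · rintro ⟨s, hs, rfl⟩
      simpa using hs
  rw [h4, Measure.count_apply_finset]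
  exact_mod_cast Finset.card_image_le

theorem SBY_swap {Y ι : Type} [MeasurableSpace Y] (m : Measure Y) (f : ι → Y → ENNReal) :
    ∑' i, ∫⁻ p, f i p ∂m ≤ ∫⁻ p, ∑' i, f i p ∂m := by
  classical
  rw [ENNReal.tsum_eq_iSup_sum]
  refine iSup_le fun s => ?_
  have h : ∑ i ∈ s, ∫⁻ p, f i p ∂m ≤ ∫⁻ p, ∑ i ∈ s, f i p ∂m := by
    induction s using Finset.induction_on with
    | empty => simp
    | insert a s ha ih =>
      rw [Finset.sum_insert ha]
      refine (add_le_add_right ih _).trans ((le_lintegral_add _ _).trans (le_of_eq ?_))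
      refine lintegral_congr fun p => ?_
      rw [Finset.sum_insert ha]
  exact h.trans (lintegral_mono fun p => ENNReal.sum_le_tsum s)

/-- the integral over the inner vertices of a chain of `n + 1` steps -/
def SBY_I {Y : Type} [MeasurableSpace Y] (m : Measure Y) (u : Y → Y → ENNReal) (n : ℕ) (x z : Y) : ENNReal :=
  ∫⁻ v, ∏ j ∈ Finset.range (n + 1), u (vz x z v j) (vz x z v (j + 1)) ∂mZ m n

theorem SBY_zero (hVXZ : VQ.VXZ_stmt) {Y : Type} [MeasurableSpace Y] (m : Measure Y) [SigmaFinite m] (u : Y → Y → ENNReal) (x z : Y) :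
    SBY_I m u 0 x z = u x z := by
  obtain ⟨-, h2, -⟩ := hVXZ Y m
  unfold SBY_I
  have h : ∀ v : Fin 0 → Y, ∏ j ∈ Finset.range (0 + 1), u (vz x z v j) (vz x z v (j + 1)) = u x z := by
    intro v
    rw [zero_add, Finset.prod_range_one, (h2 0 x z v).1, (h2 0 x z v).2]
  simp_rw [h]
  rw [lintegral_const]
  have h3 : mZ m 0 (univ : Set (Fin 0 → Y)) = 1 := by
    unfold mZ
    rw [Measure.pi_univ]
    simp
  rw [h3, mul_one]

theorem SBY_succ (hVXZ : VQ.VXZ_stmt) {Y : Type} [MeasurableSpace Y] (m : Measure Y) [SigmaFinite m] (u : Y → Y → ENNReal)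
    (hu : Measurable (Function.uncurry u)) (n : ℕ) (x z : Y) :
    SBY_I m u (n + 1) x z = ∫⁻ p, SBY_I m u n p z * u x p ∂m := by
  obtain ⟨h1, h2, h3, -, h5, -⟩ := hVXZ Y m
  have hvz : ∀ j, Measurable fun p : Y × (Fin n → Y) => vz p.1 z p.2 j := fun j =>
    (h3 n j).comp ((measurable_fst.prodMk measurable_const).prodMk measurable_snd)
  have hf : Measurable fun p : Y × (Fin n → Y) => (∏ j ∈ Finset.range (n + 1), u (vz p.1 z p.2 j) (vz p.1 z p.2 (j + 1))) * u x p.1 := by
    refine Measurable.mul ?_ ?_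
    · exact Finset.measurable_prod _ fun j _ => hu.comp ((hvz j).prodMk (hvz (j + 1)))
    · exact hu.comp (measurable_const.prodMk measurable_fst)
  have h6 := h5 n _ hf
  have h7 : SBY_I m u (n + 1) x z = ∫⁻ v : Fin (n + 1) → Y, (∏ j ∈ Finset.range (n + 1), u (vz (v 0) z (fun i : Fin n => v i.succ) j) (vz (v 0) z (fun i : Fin n => v i.succ) (j + 1))) * u x (v 0) ∂mZ m (n + 1) := by
    unfold SBY_I
    refine lintegral_congr fun v => ?_
    rw [Finset.prod_range_succ']
    have e1 : ∏ k ∈ Finset.range (n + 1), u (vz x z v (k + 1)) (vz x z v (k + 1 + 1)) = ∏ j ∈ Finset.range (n + 1), u (vz (v 0) z (fun i : Fin n => v i.succ) j) (vz (v 0) z (fun i : Fin n => v i.succ) (j + 1)) := by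
      refine Finset.prod_congr rfl fun j _ => ?_
      rw [h1 n x z v j, h1 n x z v (j + 1)]
    have e2 : u (vz x z v 0) (vz x z v (0 + 1)) = u x (v 0) := by
      rw [h1 n x z v 0, (h2 (n + 1) x z v).1, (h2 n (v 0) z _).1]
    rw [e1, e2]
  rw [h7]
  refine h6.trans (lintegral_congr fun p => ?_)
  unfold SBY_I
  have h8 : Measurable fun v : Fin n → Y => ∏ j ∈ Finset.range (n + 1), u (vz p z v j) (vz p z v (j + 1)) := by
    refine Finset.measurable_prod _ fun j _ => ?_
    have h9 : Measurable fun v : Fin n → Y => (vz p z v j, vz p z v (j + 1)) := by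
      have hp : Measurable fun v : Fin n → Y => ((p, v) : Y × (Fin n → Y)) := measurable_const.prodMk measurable_id
      exact ((hvz j).comp hp).prodMk ((hvz (j + 1)).comp hp)
    exact hu.comp h9
  exact lintegral_mul_const (u x p) h8

theorem SBY_bound (hVXZ : VQ.VXZ_stmt) (Γ : Type) [Group Γ] (hc : Countable Γ) (W : Set (P d)) (hW : MeasurableSet W) (u : YS Γ d → YS Γ d → ENNReal)
    (S0 : Finset Γ) (Bu : ENNReal) (hu : Measurable (Function.uncurry u)) (hs : ∀ y y', u y y' ≠ 0 → y.1⁻¹ * y'.1 ∈ S0) (hB : ∀ y y', u y y' ≤ Bu) (n : ℕ) :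
    ∀ x y : YS Γ d, ∑' γ : Γ, SBY_I (mWW Γ W) u n x (γ • y) ≤ (S0.card : ENNReal) * Bu ^ (n + 1) * ((S0.card : ENNReal) * volume W) ^ n := by
  classical
  haveI := SBY_sf (d := d) Γ hc W
  induction n with
  | zero =>
    intro x y
    simp_rw [SBY_zero hVXZ]
    rw [zero_add, pow_one, pow_zero, mul_one]
    set T : Finset Γ := S0.image fun s => x.1 * s * y.1⁻¹ with hT
    have hsup : ∀ γ ∉ T, u x (γ • y) = 0 := by
      intro γ hγ
      by_contra hne
      apply hγ
      rw [hT]
      have h := hs x (γ • y) hne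
      have h' : x.1⁻¹ * (γ * y.1) ∈ S0 := h
      rw [Finset.mem_image]
      exact ⟨_, h', by group⟩
    rw [tsum_eq_sum (s := T) hsup]
    refine (Finset.sum_le_card_nsmul _ _ Bu fun γ _ => hB _ _).trans ?_
    rw [nsmul_eq_mul]
    have hcard : (T.card : ENNReal) ≤ (S0.card : ENNReal) := by
      have h0 : T.card ≤ S0.card := hT ▸ Finset.card_image_le (s := S0) (f := fun s => x.1 * s * y.1⁻¹)
      exact_mod_cast h0
    exact mul_le_mul_left hcard Bu
  | succ n ih =>
    intro x y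
    simp_rw [SBY_succ hVXZ (mWW Γ W) u hu n]
    refine (SBY_swap _ _).trans ?_
    have h1 : ∀ p : YS Γ d, ∑' γ : Γ, SBY_I (mWW Γ W) u n p (γ • y) * u x p ≤ ((S0.card : ENNReal) * Bu ^ (n + 1) * ((S0.card : ENNReal) * volume W) ^ n) * u x p := by
      intro p
      rw [ENNReal.tsum_mul_right]
      gcongr
      exact ih p y
    refine (lintegral_mono h1).trans ?_
    have h9 : Measurable fun p : YS Γ d => u x p := by
      have hp : Measurable fun p : YS Γ d => ((x, p) : YS Γ d × YS Γ d) := measurable_const.prodMk measurable_id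
      exact hu.comp hp
    rw [lintegral_const_mul _ h9]
    have h2 : ∫⁻ p, u x p ∂mWW Γ W ≤ Bu * ((S0.card : ENNReal) * volume W) := by
      have h3 : ∀ p : YS Γ d, u x p ≤ ({p : YS Γ d | x.1⁻¹ * p.1 ∈ S0}).indicator (fun _ => Bu) p := by
        intro p
        by_cases hp : x.1⁻¹ * p.1 ∈ S0
        · rw [indicator_of_mem (by exact hp)]
          exact hB _ _
        · have : u x p = 0 := by
            by_contra hne
            exact hp (hs x p hne)
          rw [this]
          exact bot_le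
      refine (lintegral_mono h3).trans ((lintegral_indicator_const_le _ _).trans ?_)
      gcongr
      exact SBY_mass Γ hc W hW S0 x.1
    refine (mul_le_mul_right h2 _).trans (le_of_eq ?_)
    ring

theorem SBY_proof (_hPSY : PSY_stmt) (hVXZ : VQ.VXZ_stmt) : SBY_stmt := by
  intro d Γ _ W u S0 Bu l hc hW hu hs hB hl x y
  obtain ⟨n, hn⟩ : ∃ n, nst l = n + 1 := by
    cases l with
    | nil => exact absurd rfl hl
    | cons a t =>
      refine ⟨a + (t.map (· + 1)).sum, ?_⟩
      unfold nst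
      rw [List.map_cons, List.sum_cons]
      ring
  have h := SBY_bound hVXZ Γ hc W hW u S0 Bu hu hs hB n x y
  unfold wM
  rw [hn, Nat.add_sub_cancel]
  refine h.trans ?_
  gcongr
  rcases Nat.eq_zero_or_pos S0.card with h0 | h0
  · rw [h0]
    simp
  · calc (S0.card : ENNReal) = (S0.card : ENNReal) ^ 1 := (pow_one _).symm
      _ ≤ (S0.card : ENNReal) ^ (n + 1) := pow_le_pow_right₀ (by exact_mod_cast h0) (by omega)

end

end Pool.Agent.VD
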