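import Pool.Agent.helper84.VD.SpecB5

/-! Row SEM of project VD: the constants of sections are monotone. -/

set_option autoImplicit false

open scoped ContDiff Topology InnerProductSpace ENNReal
open MeasureTheory Filter Set

namespace Pool.Agent.VD

open Pool.Agent.VQ (CH qZ)
open Pool.Agent.VDE (dir)

noncomputable section

theorem SEM_hyp {m : ℕ} {c C C2 e0 e2 : ℝ} {F : Z m → Z m} (h : HYP c C e0 F) (hC : C ≤ C2) (he : e2 ≤ e0) : HYP c C2 e2 F := by
  have hb : Metric.ball (0 : Z m) e2 ⊆ Metric.ball 0 e0 := Metric.ball_subset_ball he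
  refine ⟨h.cd.mono hb, fun a ha => ?_, fun a ha b hb' => ?_⟩
  · have h1 := h.lh a (hb ha)
    exact ⟨fun w => (h1.bd w).trans (mul_le_mul_of_nonneg_right hC (norm_nonneg _)), fun w => (h1.lo w).trans (mul_le_mul_of_nonneg_right hC (norm_nonneg _)), h1.hy⟩
  · exact (h.lip a (hb ha) b (hb hb')).trans (mul_le_mul_of_nonneg_right hC (norm_nonneg _))

theorem SEM_proof : SEM_stmt := by
  intro m c C C2 e0 e2 e1 S D Φ κ hD h hC he2 he hel
  have hm : ∀ x : ℝ, 0 ≤ x → C * x ≤ C2 * x := fun x hx => mul_le_mul_of_nonneg_right hC hx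
  refine ⟨h.cp, h.C1.trans hC, he2, hel, h.zero, h.mem, h.bas, ?_, ?_, ?_, ?_, ?_⟩
  · intro z hz u hu huz hd
    obtain ⟨w, hw1, hw2⟩ := h.ver z hz u hu huz (hd.trans he)
    exact ⟨w, hw1, hw2.trans (hm _ (hD z u))⟩
  · intro z hz a b ha hb
    exact (h.cmp z hz a b ha hb).trans (hm _ (norm_nonneg _))
  · intro z hz p hp hd
    obtain ⟨s, a, h1, h2, h3⟩ := h.box z hz p hp (hd.trans he)
    exact ⟨s, a, h1, h2.trans (hm _ (hD z p)), h3.trans (hm _ (hD z p))⟩
  · intro z hz a a' s s' ha ha' hs hs'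
    exact (h.inj z hz a a' s s' ha ha' hs hs').trans (hm _ (hD _ _))
  · intro z hz z' hz' t ht1 ht2 hd
    obtain ⟨F, τ, h1, h2, h3, h4⟩ := h.pmap z hz z' hz' t ht1 ht2 (hd.trans he)
    refine ⟨F, τ, SEM_hyp h1 hC he, h2.trans (hm _ (hD _ _)), fun a ha => h3 a (ha.trans_le he), fun a ha => ?_⟩
    obtain ⟨h5, h6, h7⟩ := h4 a (ha.trans he)
    refine ⟨h5, h6.trans (hm _ (add_nonneg (sq_nonneg _) (hD _ _))), fun b hb => ?_⟩
    obtain ⟨h8, h9⟩ := h7 b (hb.trans he)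
    exact ⟨h8.trans (hm _ (norm_nonneg _)), h9.trans (hm _ (norm_nonneg _))⟩

end

end Pool.Agent.VD
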