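import Pool.Agent.helper93.VD.SpecB1

/-!
# Project VD (MP_07c750_an), row `vd:VFU`: the volume of the Bowen ball
-/

set_option autoImplicit false

open scoped ContDiff Topology InnerProductSpace
open MeasureTheory Filter Set

namespace Pool.Agent.VD

noncomputable section

/-- the Bowen ball is closed -/
theorem VFU_closed {m : ℕ} {c C e0 e : ℝ} (F : ℕ → Z m → Z m) (hF : ∀ i, HYP c C e0 (F i)) (he : e < e0) (n : ℕ) :
    IsClosed {a : Z m | ∀ i ≤ n, ‖it F i a‖ ≤ e} ∧ ContinuousOn (it F n) {a : Z m | ∀ i ≤ n, ‖it F i a‖ ≤ e} := by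
  induction n with
  | zero =>
    have h1 : {a : Z m | ∀ i ≤ 0, ‖it F i a‖ ≤ e} = Metric.closedBall 0 e := by
      ext a
      simp only [mem_setOf_eq, Metric.mem_closedBall, dist_zero_right]
      constructor
      · intro h
        exact h 0 le_rfl
      · intro h i hi
        have h2 : i = 0 := Nat.le_zero.1 hi
        subst h2
        exact h
    rw [h1]
    exact ⟨Metric.isClosed_closedBall, continuousOn_id⟩
  | succ n ih =>
    obtain ⟨h1, h2⟩ := ih
    have h3 : ContinuousOn (it F (n + 1)) {a : Z m | ∀ i ≤ n, ‖it F i a‖ ≤ e} := by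
      have h4 : ContinuousOn (F n) (Metric.ball 0 e0) := (hF n).cd.continuousOn
      exact h4.comp h2 (fun a ha => by
        rw [Metric.mem_ball, dist_zero_right]
        exact (ha n le_rfl).trans_lt he)
    have h5 : {a : Z m | ∀ i ≤ n + 1, ‖it F i a‖ ≤ e} =
        {a : Z m | ∀ i ≤ n, ‖it F i a‖ ≤ e} ∩ (it F (n + 1)) ⁻¹' (Metric.closedBall 0 e) := by
      ext a
      simp only [mem_setOf_eq, mem_inter_iff, mem_preimage, Metric.mem_closedBall, dist_zero_right]
      constructor
      · intro h
        exact ⟨fun i hi => h i (by omega), h (n + 1) le_rfl⟩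
      · rintro ⟨h, h'⟩ i hi
        rcases Nat.lt_or_ge i (n + 1) with h6 | h6
        · exact h i (by omega)
        · have h7 : i = n + 1 := by omega
          rw [h7]
          exact h'
    refine ⟨?_, h3.mono ?_⟩
    · rw [h5]
      exact h3.preimage_isClosed_of_isClosed h1 Metric.isClosed_closedBall
    · rw [h5]
      exact inter_subset_left

/-- **VFU** -/
theorem VFU_proof (hVDC : VDC_stmt) (_hNDE : NDE_stmt) : VFU_stmt := by
  intro m c C e0 hc hC he0
  obtain ⟨e1, K, he1, he1', hK, hV⟩ := hVDC m c C e0 hc hC he0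
  set v : ENNReal := volume (Metric.ball (0 : W m) 1) with hv
  have hv0 : v ≠ 0 := (Metric.measure_ball_pos volume (0 : W m) one_pos).ne'
  have hvt : v ≠ ⊤ := measure_ball_lt_top.ne
  set Vr : ℝ := v.toReal with hVr
  have hVr0 : 0 < Vr := ENNReal.toReal_pos hv0 hvt
  have hvV : v = ENNReal.ofReal Vr := (ENNReal.ofReal_toReal hvt).symm
  have hK0 : 0 < K := lt_of_lt_of_le one_pos hK
  set K2 : ℝ := max 1 (max (K * Vr) (K ^ (m + 1) / Vr)) with hK2
  have hK21 : 1 ≤ K2 := le_max_left _ _
  have hK22 : K * Vr ≤ K2 := (le_max_left _ _).trans (le_max_right _ _)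
  have hK23 : K ^ (m + 1) / Vr ≤ K2 := (le_max_right _ _).trans (le_max_right _ _)
  have hK20 : 0 < K2 := lt_of_lt_of_le one_pos hK21
  refine ⟨e1, K2, he1, he1', hK21, ?_⟩
  intro F n e hF hF0 hn he hee
  have heE : e < e0 := by linarith
  have hcl := (VFU_closed F hF heE n).1
  set D : ENNReal := ENNReal.ofReal (dB (fderiv ℝ (it F n) 0)) with hD
  have hDt : D ≠ ⊤ := ENNReal.ofReal_ne_top
  have hvol : D * volume {a : Z m | ∀ i ≤ n, ‖it F i a‖ ≤ e} =
      ∫⁻ x : W m, D * volume {w : W m | ∀ i ≤ n, ‖it F i (x, w)‖ ≤ e} := by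
    rw [lintegral_const_mul' _ _ hDt]
    congr 1
    rw [Measure.volume_eq_prod, Measure.prod_apply hcl.measurableSet]
    rfl
  have hball : ∀ r : ℝ, 0 ≤ r → volume (Metric.closedBall (0 : W m) r) = ENNReal.ofReal (r ^ m * Vr) := by
    intro r hr
    rw [Measure.addHaar_closedBall _ _ hr, finrank_euclideanSpace_fin, ENNReal.ofReal_mul (pow_nonneg hr m)]
    rw [← hvV]
  rw [hvol]
  constructor
  · -- upper bound
    have h1 : ∀ x : W m, D * volume {w : W m | ∀ i ≤ n, ‖it F i (x, w)‖ ≤ e} ≤
        (Metric.closedBall (0 : W m) e).indicator (fun _ => ENNReal.ofReal (K * e ^ m)) x := by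
      intro x
      by_cases hx : ‖x‖ ≤ e
      · rw [indicator_of_mem (by rw [Metric.mem_closedBall, dist_zero_right]; exact hx)]
        exact (hV F n e x hF hF0 hn he hee hx).1
      · rw [indicator_of_notMem (by rw [Metric.mem_closedBall, dist_zero_right]; exact hx)]
        have h2 : {w : W m | ∀ i ≤ n, ‖it F i (x, w)‖ ≤ e} = ∅ := by
          ext w
          simp only [mem_setOf_eq, mem_empty_iff_false, iff_false]
          intro h3
          apply hx
          have h4 : ‖((x, w) : Z m)‖ ≤ e := h3 0 (Nat.zero_le _)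
          exact (norm_fst_le ((x, w) : Z m)).trans h4
        rw [h2, measure_empty, mul_zero]
    refine (lintegral_mono h1).trans ?_
    rw [lintegral_indicator Metric.isClosed_closedBall.measurableSet, setLIntegral_const, hball e he.le,
      ← ENNReal.ofReal_mul (mul_nonneg hK0.le (pow_nonneg he.le m))]
    apply ENNReal.ofReal_le_ofReal
    have h2 : K * e ^ m * (e ^ m * Vr) = K * Vr * e ^ (2 * m) := by
      rw [two_mul, pow_add]
      ring
    rw [h2]
    exact mul_le_mul_of_nonneg_right hK22 (pow_nonneg he.le _)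
  · -- lower bound
    have h1 : ∀ x : W m, (Metric.closedBall (0 : W m) (e / K)).indicator (fun _ => ENNReal.ofReal (e ^ m / K)) x ≤
        D * volume {w : W m | ∀ i ≤ n, ‖it F i (x, w)‖ ≤ e} := by
      intro x
      by_cases hx : x ∈ Metric.closedBall (0 : W m) (e / K)
      · rw [indicator_of_mem hx]
        rw [Metric.mem_closedBall, dist_zero_right, le_div_iff₀ hK0] at hx
        have h2 : K * ‖x‖ ≤ e := by rwa [mul_comm] at hx
        have h3 : ‖x‖ ≤ e := by
          have h4 : 1 * ‖x‖ ≤ K * ‖x‖ := mul_le_mul_of_nonneg_right hK (norm_nonneg _)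
          linarith
        exact (hV F n e x hF hF0 hn he hee h3).2 h2
      · rw [indicator_of_notMem hx]
        exact zero_le
    refine le_trans ?_ (lintegral_mono h1)
    rw [lintegral_indicator Metric.isClosed_closedBall.measurableSet, setLIntegral_const, hball (e / K) (div_nonneg he.le hK0.le),
      ← ENNReal.ofReal_mul (div_nonneg (pow_nonneg he.le m) hK0.le)]
    apply ENNReal.ofReal_le_ofReal
    have h2 : e ^ m / K * ((e / K) ^ m * Vr) = e ^ (2 * m) * (Vr / K ^ (m + 1)) := by
      rw [div_pow, two_mul, pow_add, pow_succ]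
      field_simp
    rw [h2, div_eq_mul_inv]
    refine mul_le_mul_of_nonneg_left ?_ (pow_nonneg he.le _)
    rw [inv_le_comm₀ hK20 (div_pos hVr0 (pow_pos hK0 _)), inv_div]
    exact hK23

end

end Pool.Agent.VD
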